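import Pool.Agent.Helper97.Fuchs.Defs3
import Pool.Agent.Helper97.Fuchs.H11.Words

/-!
# Bounded Green function from negative moments (FU-D5a, first part)
-/

namespace Pool.Agent.Helper97.Fuchs.H11

open MeasureTheory Matrix UpperHalfPlane Filter Topology
open scoped MatrixGroups ENNReal BigOperators

noncomputable section

variable {ι : Type} [Fintype ι]

lemma Ex_one' (w : ι → ℝ) (F : (Fin 1 → ι) → ℝ) : Ex w 1 F = ∑ i, w i * F (fun _ => i) := by
  unfold Ex
  rw [← (Equiv.funUnique (Fin 1) ι).symm.sum_comp]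
  apply Finset.sum_congr rfl
  intro i _
  unfold wt
  rw [Fin.prod_univ_one]
  rfl

omit [Fintype ι] in
lemma word_app (A : ι → SL(2, ℝ)) {m n : ℕ} (u : Fin m → ι) (v : Fin n → ι) :
    word A (Fin.append u v) = word A u * word A v := by
  unfold word
  rw [← List.prod_append]
  congr 1
  apply List.ext_getElem
  · simp
  · intro i h₁ h₂
    rw [List.getElem_ofFn, List.getElem_append]
    split_ifs with hi
    · rw [List.getElem_ofFn]
      have h3 : i < m := by simpa using hi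
      exact congrArg A (Fin.append_left u v ⟨i, h3⟩)
    · rw [List.getElem_ofFn]
      have h3 : m ≤ i := by simpa using hi
      have h4 : i < m + n := by simpa using h₁
      have e : (⟨i, h4⟩ : Fin (m + n)) = Fin.natAdd m ⟨i - m, by omega⟩ := by
        apply Fin.ext
        simp
        omega
      have h5 : Fin.append u v ⟨i, h4⟩ = v ⟨i - m, by omega⟩ := by
        rw [e, Fin.append_right]
      rw [h5]
      congr 2
      apply Fin.ext
      simp

theorem Ex_iter' (w : ι → ℝ) (A : ι → SL(2, ℝ)) (f : ℂ → ℝ) (n : ℕ) (z : ℂ) :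
    Ex w n (fun u => f (lin (word A u) z)) = (avg w A)^[n] f z := by
  induction n generalizing z with
  | zero =>
    unfold Ex wt word
    simp
  | succ n ih =>
    rw [Function.iterate_succ_apply', avg, Ex_app]
    simp only [Ex_one', word_app]
    have h1 : ∀ (i : ι), word A (fun _ : Fin 1 => i) = A i := by
      intro i
      unfold word
      simp
    simp only [h1, lin_mul, ← ih]
    unfold Ex
    rw [Finset.sum_congr rfl (fun u _ => Finset.mul_sum _ _ _), Finset.sum_comm]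
    apply Finset.sum_congr rfl
    intro i _
    rw [Finset.mul_sum]
    apply Finset.sum_congr rfl
    intro u _
    ring

lemma avg_mono {w : ι → ℝ} (hw : IsWt w) (A : ι → SL(2, ℝ)) {f g : ℂ → ℝ}
    (h : ∀ z, z ≠ 0 → f z ≤ g z) : ∀ z, z ≠ 0 → avg w A f z ≤ avg w A g z := by
  intro z hz
  exact Finset.sum_le_sum fun i _ => mul_le_mul_of_nonneg_left (h _ (lin_ne_zero hz)) (hw.pos i).le

lemma avg_smul (w : ι → ℝ) (A : ι → SL(2, ℝ)) (c : ℝ) (f : ℂ → ℝ) :
    avg w A (fun z => c * f z) = fun z => c * avg w A f z := by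
  funext z
  unfold avg
  rw [Finset.mul_sum]
  exact Finset.sum_congr rfl fun i _ => by ring

lemma iter_mono {w : ι → ℝ} (hw : IsWt w) (A : ι → SL(2, ℝ)) (n : ℕ) {f g : ℂ → ℝ}
    (h : ∀ z, z ≠ 0 → f z ≤ g z) : ∀ z, z ≠ 0 → (avg w A)^[n] f z ≤ (avg w A)^[n] g z := by
  induction n with
  | zero => exact h
  | succ n ih =>
    intro z hz
    rw [Function.iterate_succ_apply', Function.iterate_succ_apply']
    exact avg_mono hw A ih z hz

lemma iter_smul (w : ι → ℝ) (A : ι → SL(2, ℝ)) (c : ℝ) (f : ℂ → ℝ) (n : ℕ) :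
    (avg w A)^[n] (fun z => c * f z) = fun z => c * (avg w A)^[n] f z := by
  induction n with
  | zero => rfl
  | succ n ih =>
    rw [Function.iterate_succ_apply', ih, avg_smul]
    funext z
    rw [Function.iterate_succ_apply']

/-- iterating a contraction estimate -/
lemma iter_pow_le {w : ι → ℝ} (hw : IsWt w) (A : ι → SL(2, ℝ)) {K : ℕ} {f : ℂ → ℝ} {ρ : ℝ}
    (hρ : 0 ≤ ρ) (h : ∀ z, z ≠ 0 → (avg w A)^[K] f z ≤ ρ * f z) (q : ℕ) :
    ∀ z, z ≠ 0 → (avg w A)^[K * q] f z ≤ ρ ^ q * f z := by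
  induction q with
  | zero => intro z _; simp
  | succ q ih =>
    intro z hz
    have e : K * (q + 1) = K * q + K := by ring
    rw [e, Function.iterate_add_apply]
    refine (iter_mono hw A (K * q) (g := fun z => ρ * f z) h z hz).trans ?_
    rw [iter_smul]
    calc ρ * (avg w A)^[K * q] f z ≤ ρ * (ρ ^ q * f z) := mul_le_mul_of_nonneg_left (ih z hz) hρ
      _ = ρ ^ (q + 1) * f z := by ring

theorem ret_bound_of (w : ι → ℝ) (A : ι → SL(2, ℝ)) (hw : IsWt w) {K : ℕ} (hK : 1 ≤ K)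
    {s ρ : ℝ} (hs : 0 < s) (hρ0 : 0 ≤ ρ) (hρ : ρ < 1)
    (hneg : ∀ z : ℂ, z ≠ 0 → (avg w A)^[K] (fun z => ‖z‖ ^ (-s)) z ≤ ρ * ‖z‖ ^ (-s)) :
    ∃ G : ℝ, ∀ n : ℕ, (∑ k ∈ Finset.range n,
      Ex w k (fun u => open Classical in if word A u = 1 then 1 else 0)) ≤ G := by
  classical
  set B : ℝ := 1 + ∑ i, w i * nrm (A i) ^ s with hB
  have hB1 : 1 ≤ B := by
    rw [hB]
    have : 0 ≤ ∑ i, w i * nrm (A i) ^ s := Finset.sum_nonneg fun i _ =>
      mul_nonneg (hw.pos i).le (Real.rpow_nonneg (nrm_nonneg _) _)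
    linarith
  set f : ℂ → ℝ := fun z => ‖z‖ ^ (-s) with hf
  have hf0 : ∀ z, 0 ≤ f z := fun z => Real.rpow_nonneg (norm_nonneg z) _
  -- one step costs at most `B`
  have hstep : ∀ z, z ≠ 0 → (avg w A)^[1] f z ≤ B * f z := by
    intro z hz
    rw [Function.iterate_one]
    unfold avg
    have h1 : ∀ i, f (lin (A i) z) ≤ nrm (A i) ^ s * f z := by
      intro i
      rw [hf]
      simp only
      have hz' : 0 < ‖z‖ := norm_pos_iff.2 hz
      have hl : 0 < ‖lin (A i) z‖ := norm_pos_iff.2 (lin_ne_zero hz)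
      have h2 := norm_le_lin (A i) z
      rw [Real.rpow_neg hl.le, Real.rpow_neg hz'.le, ← div_eq_mul_inv, inv_eq_one_div,
        div_le_div_iff₀ (Real.rpow_pos_of_pos hl s) (Real.rpow_pos_of_pos hz' s), one_mul,
        ← Real.mul_rpow (nrm_nonneg _) hl.le]
      exact Real.rpow_le_rpow hz'.le h2 hs.le
    calc ∑ i, w i * f (lin (A i) z) ≤ ∑ i, w i * (nrm (A i) ^ s * f z) :=
          Finset.sum_le_sum fun i _ => mul_le_mul_of_nonneg_left (h1 i) (hw.pos i).le
      _ = (∑ i, w i * nrm (A i) ^ s) * f z := by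
          rw [Finset.sum_mul]
          exact Finset.sum_congr rfl fun i _ => by ring
      _ ≤ B * f z := mul_le_mul_of_nonneg_right (by rw [hB]; linarith) (hf0 z)
  have hret : ∀ k, Ex w k (fun u => if word A u = 1 then (1 : ℝ) else 0) ≤ B ^ K * ρ ^ (k / K) := by
    intro k
    have h1 : Ex w k (fun u => if word A u = 1 then (1 : ℝ) else 0) ≤ (avg w A)^[k] f 1 := by
      rw [← Ex_iter']
      apply Ex_mono' hw
      intro u
      split_ifs with hu
      · rw [hu, lin_one, hf]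
        simp
      · exact hf0 _
    refine h1.trans ?_
    have e : k = (K * (k / K)) + (k % K) := (Nat.div_add_mod k K).symm
    have h2 : (avg w A)^[k] f 1 ≤ ρ ^ (k / K) * (B ^ (k % K) * f 1) := by
      conv_lhs => rw [e, Nat.add_comm, Function.iterate_add_apply]
      refine (iter_mono hw A (k % K) (g := fun z => ρ ^ (k / K) * f z)
        (iter_pow_le hw A hρ0 hneg _) 1 one_ne_zero).trans ?_
      rw [iter_smul]
      apply mul_le_mul_of_nonneg_left _ (pow_nonneg hρ0 _)
      have := iter_pow_le hw A (K := 1) (f := f) (ρ := B) (by linarith) hstep (k % K) 1 one_ne_zero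
      rwa [one_mul] at this
    refine h2.trans ?_
    have h3 : f 1 = 1 := by rw [hf]; simp
    rw [h3, mul_one, mul_comm]
    apply mul_le_mul_of_nonneg_right _ (pow_nonneg hρ0 _)
    exact pow_le_pow_right₀ hB1 (Nat.mod_lt _ (by omega)).le
  refine ⟨B ^ K * (K * (1 / (1 - ρ))), fun n => ?_⟩
  refine (Finset.sum_le_sum fun k _ => hret k).trans ?_
  rw [← Finset.mul_sum]
  apply mul_le_mul_of_nonneg_left _ (by positivity)
  have h4 : ∀ m : ℕ, ∑ k ∈ Finset.range (K * m), ρ ^ (k / K) = K * ∑ q ∈ Finset.range m, ρ ^ q := by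
    intro m
    induction m with
    | zero => simp
    | succ m ih =>
      rw [Nat.mul_succ, Finset.sum_range_add, ih, Finset.sum_range_succ, mul_add]
      congr 1
      rw [Finset.sum_congr rfl (g := fun _ => ρ ^ m)]
      · simp
      · intro j hj
        rw [Finset.mem_range] at hj
        congr 1
        rw [Nat.mul_add_div (by omega), Nat.div_eq_of_lt hj, Nat.add_zero]
  have h5 : ∑ k ∈ Finset.range n, ρ ^ (k / K) ≤ ∑ k ∈ Finset.range (K * n), ρ ^ (k / K) := by
    apply Finset.sum_le_sum_of_subset_of_nonneg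
    · intro x hx
      rw [Finset.mem_range] at hx ⊢
      nlinarith
    · intro i _ _
      exact pow_nonneg hρ0 _
  refine h5.trans ?_
  rw [h4]
  apply mul_le_mul_of_nonneg_left _ (by positivity)
  have h6 : ∑ q ∈ Finset.range n, ρ ^ q ≤ 1 / (1 - ρ) := by
    rw [geom_sum_eq hρ.ne, div_eq_mul_one_div]
    have h7 : ρ - 1 < 0 := by linarith
    have h8 : (ρ ^ n - 1) * (1 / (ρ - 1)) = (1 - ρ ^ n) * (1 / (1 - ρ)) := by
      have : ρ - 1 ≠ 0 := h7.ne
      have : (1 : ℝ) - ρ ≠ 0 := by linarith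
      field_simp
      ring
    rw [h8]
    have h9 : 0 ≤ ρ ^ n := pow_nonneg hρ0 _
    have h10 : 0 < 1 / (1 - ρ) := by
      apply div_pos one_pos; linarith
    nlinarith
  exact h6

/-- `ret_bound`, with the two black boxes `unif_growth` (first part) and `neg_moment` as
hypotheses -/
theorem ret_bound_of_neg (w : ι → ℝ) (A : ι → SL(2, ℝ)) (hw : IsWt w) (hlam : 0 < lam w A)
    (hneg : ∀ ε : ℝ, 0 < ε → ∃ K : ℕ, 1 ≤ K ∧ ∃ s₀ : ℝ, 0 < s₀ ∧ ∀ s : ℝ, 0 < s → s ≤ s₀ →
      ∀ z : ℂ, z ≠ 0 → (avg w A)^[K] (fun z => ‖z‖ ^ (-s)) z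
        ≤ Real.exp (-(s * (lam w A - ε) * K)) * ‖z‖ ^ (-s)) :
    ∃ G : ℝ, ∀ n : ℕ, (∑ k ∈ Finset.range n,
      Ex w k (fun u => open Classical in if word A u = 1 then 1 else 0)) ≤ G := by
  obtain ⟨K, hK, s₀, hs₀, h⟩ := hneg (lam w A / 2) (by linarith)
  refine ret_bound_of w A hw hK hs₀ (Real.exp_pos _).le ?_ (h s₀ hs₀ le_rfl)
  rw [Real.exp_lt_one_iff, neg_neg_iff_pos]
  have : (0 : ℝ) < K := by exact_mod_cast hK
  have h2 : 0 < lam w A - lam w A / 2 := by linarith
  positivity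

end

end Pool.Agent.Helper97.Fuchs.H11
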