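import Pool.Agent.Helper97.Fuchs.H11.EntLimit
import Pool.Agent.Helper97.Fuchs.H11.Return

/-!
# Conjugation invariance (FU-CONJ)
-/

namespace Pool.Agent.Helper97.Fuchs.H11

open MeasureTheory Matrix UpperHalfPlane Filter Topology
open scoped MatrixGroups ENNReal BigOperators

noncomputable section

variable {ι : Type} [Fintype ι]

/-- the conjugated steps -/
def cj (h : SL(2, ℝ)) (A : ι → SL(2, ℝ)) : ι → SL(2, ℝ) := fun i => h * A i * h⁻¹

omit [Fintype ι] in
lemma word_cj (h : SL(2, ℝ)) (A : ι → SL(2, ℝ)) {n : ℕ} (u : Fin n → ι) :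
    word (cj h A) u = h * word A u * h⁻¹ := by
  induction n with
  | zero => simp [word]
  | succ n ih =>
    have h1 : ∀ B : ι → SL(2, ℝ), word B u = B (u 0) * word B (fun k => u k.succ) := fun B => by
      simp [word, List.ofFn_succ]
    rw [h1, h1, ih, cj]
    group

omit [Fintype ι] in
lemma cj_cj (h : SL(2, ℝ)) (A : ι → SL(2, ℝ)) : cj h⁻¹ (cj h A) = A := by
  funext i
  simp only [cj]
  group

lemma log_nrm_nonneg (g : SL(2, ℝ)) : 0 ≤ Real.log (nrm g) := Real.log_nonneg (one_le_nrm g)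

lemma log_nrm_mul_le' (g h : SL(2, ℝ)) :
    Real.log (nrm (g * h)) ≤ Real.log (nrm g) + Real.log (nrm h) := by
  rw [← Real.log_mul (nrm_pos g).ne' (nrm_pos h).ne']
  exact Real.log_le_log (nrm_pos _) (nrm_mul_le g h)

lemma L_nonneg {w : ι → ℝ} (hw : IsWt w) (A : ι → SL(2, ℝ)) (n : ℕ) : 0 ≤ L w A n :=
  Finset.sum_nonneg fun u _ => mul_nonneg (wt_pos' hw u).le (log_nrm_nonneg _)

lemma L_add_le {w : ι → ℝ} (hw : IsWt w) (A : ι → SL(2, ℝ)) (m n : ℕ) :
    L w A (m + n) ≤ L w A m + L w A n := by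
  unfold L
  rw [Ex_app]
  have h1 : ∀ u : Fin m → ι, Ex w n (fun v => Real.log (nrm (word A (Fin.append u v)))) ≤
      Real.log (nrm (word A u)) + Ex w n (fun v => Real.log (nrm (word A v))) := by
    intro u
    have h2 : Ex w n (fun v => Real.log (nrm (word A (Fin.append u v)))) ≤
        Ex w n (fun v => Real.log (nrm (word A u)) + Real.log (nrm (word A v))) := by
      apply Ex_mono' hw
      intro v
      rw [word_app]
      exact log_nrm_mul_le' _ _
    refine h2.trans (le_of_eq ?_)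
    unfold Ex
    simp only [mul_add]
    rw [Finset.sum_add_distrib, ← Finset.sum_mul, wt_sum_one w hw.sum, one_mul]
  refine (Ex_mono' hw m h1).trans (le_of_eq ?_)
  unfold Ex
  simp only [mul_add]
  rw [Finset.sum_add_distrib, ← Finset.sum_mul (s := Finset.univ) (f := fun u : Fin m → ι => wt w u),
    wt_sum_one w hw.sum, one_mul]

lemma L_mul_le {w : ι → ℝ} (hw : IsWt w) (A : ι → SL(2, ℝ)) (n : ℕ) (k : ℕ) (hk : 1 ≤ k) :
    L w A (k * n) ≤ k * L w A n := by
  induction k, hk using Nat.le_induction with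
  | base => simp
  | succ k hk ih =>
    have h1 := L_add_le hw A (k * n) n
    rw [Nat.succ_mul]
    push_cast
    linarith

lemma L_cj_le {w : ι → ℝ} (hw : IsWt w) (A : ι → SL(2, ℝ)) (h : SL(2, ℝ)) (n : ℕ) :
    L w (cj h A) n ≤ L w A n + 2 * Real.log (nrm h) := by
  have h1 : L w (cj h A) n ≤ Ex w n (fun u => Real.log (nrm (word A u)) +
      2 * Real.log (nrm h)) := by
    apply Ex_mono' hw
    intro u
    rw [word_cj]
    have h2 := log_nrm_mul_le' (h * word A u) h⁻¹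
    have h3 := log_nrm_mul_le' h (word A u)
    rw [nrm_inv] at h2
    linarith
  refine h1.trans (le_of_eq ?_)
  unfold L Ex
  simp only [mul_add]
  rw [Finset.sum_add_distrib, ← Finset.sum_mul, wt_sum_one w hw.sum, one_mul]

lemma lam_bdd {w : ι → ℝ} (hw : IsWt w) (A : ι → SL(2, ℝ)) :
    BddBelow (Set.range fun n : ℕ => L w A (n + 1) / (n + 1)) := by
  refine ⟨0, ?_⟩
  rintro x ⟨n, rfl⟩
  have := L_nonneg hw A (n + 1)
  positivity

lemma lam_cj_le {w : ι → ℝ} (hw : IsWt w) (A : ι → SL(2, ℝ)) (h : SL(2, ℝ)) :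
    lam w (cj h A) ≤ lam w A := by
  unfold lam
  apply le_ciInf
  intro n
  set c : ℝ := 2 * Real.log (nrm h) with hc
  have hn : (0 : ℝ) < (n : ℝ) + 1 := by positivity
  -- for every `k`
  have h1 : ∀ k : ℕ, (⨅ n : ℕ, L w (cj h A) (n + 1) / (n + 1)) ≤
      L w A (n + 1) / (n + 1) + c / (((k : ℝ) + 1) * (n + 1)) := by
    intro k
    have hm : (k + 1) * (n + 1) = ((k + 1) * (n + 1) - 1) + 1 := by
      have : 1 ≤ (k + 1) * (n + 1) := Nat.one_le_iff_ne_zero.2 (by positivity)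
      omega
    have h2 := ciInf_le (lam_bdd hw (cj h A)) ((k + 1) * (n + 1) - 1)
    refine h2.trans ?_
    have h3 : (((k + 1) * (n + 1) - 1 : ℕ) : ℝ) + 1 = ((k : ℝ) + 1) * (n + 1) := by
      have : ((((k + 1) * (n + 1) - 1) + 1 : ℕ) : ℝ) = (((k + 1) * (n + 1) : ℕ) : ℝ) := by
        rw [← hm]
      push_cast at this
      exact this
    rw [← hm, h3]
    have h4 := L_cj_le hw A h ((k + 1) * (n + 1))
    have h5 := L_mul_le hw A (n + 1) (k + 1) (by omega)
    push_cast at h5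
    rw [div_add_div _ _ hn.ne' (by positivity), div_le_div_iff₀ (by positivity) (by positivity)]
    have h6 : L w (cj h A) ((k + 1) * (n + 1)) ≤ ((k : ℝ) + 1) * L w A (n + 1) + c := by linarith
    have h7 := mul_le_mul_of_nonneg_right h6
      (by positivity : (0 : ℝ) ≤ ((n : ℝ) + 1) * (((k : ℝ) + 1) * (n + 1)))
    refine h7.trans (le_of_eq ?_)
    ring
  have h8 : Tendsto (fun k : ℕ => L w A (n + 1) / (n + 1) + c / (((k : ℝ) + 1) * (n + 1))) atTop
      (𝓝 (L w A (n + 1) / (n + 1) + 0)) := by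
    apply tendsto_const_nhds.add
    apply Tendsto.div_atTop tendsto_const_nhds
    apply Tendsto.atTop_mul_const hn
    exact tendsto_atTop_add_const_right _ _ tendsto_natCast_atTop_atTop
  rw [add_zero] at h8
  exact ge_of_tendsto h8 (Eventually.of_forall h1)

omit [Fintype ι] in
lemma grp_cj_le (A : ι → SL(2, ℝ)) (h : SL(2, ℝ)) {g : SL(2, ℝ)} (hg : g ∈ grp (cj h A)) :
    h⁻¹ * g * h ∈ grp A := by
  have h1 : grp (cj h A) ≤ (grp A).comap (MulAut.conj h⁻¹).toMonoidHom := by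
    unfold grp
    rw [Subgroup.closure_le]
    rintro x (⟨i, rfl⟩ | hx)
    · show (MulAut.conj h⁻¹) (cj h A i) ∈ grp A
      have : (MulAut.conj h⁻¹) (cj h A i) = A i := by
        rw [MulAut.conj_apply]
        simp only [cj]
        group
      rw [this]
      exact Subgroup.subset_closure (Or.inl ⟨i, rfl⟩)
    · rw [Set.mem_singleton_iff] at hx
      subst hx
      show (MulAut.conj h⁻¹) (-1) ∈ grp A
      have : (MulAut.conj h⁻¹) (-1) = -1 := by
        rw [MulAut.conj_apply]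
        simp
      rw [this]
      exact Subgroup.subset_closure (Or.inr rfl)
  have h2 := h1 hg
  have h3 : (MulAut.conj h⁻¹) g ∈ grp A := h2
  rw [MulAut.conj_apply, inv_inv] at h3
  exact h3

lemma abs_entry_le (g : SL(2, ℝ)) (i j : Fin 2) : |g i j| ≤ nrm g := by
  apply abs_le_of_sq_le_sq _ (nrm_nonneg g)
  rw [nrm_sq]
  fin_cases i <;> fin_cases j
  · show (g 0 0) ^ 2 ≤ _
    nlinarith [sq_nonneg (g 0 1), sq_nonneg (g 1 0), sq_nonneg (g 1 1)]
  · show (g 0 1) ^ 2 ≤ _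
    nlinarith [sq_nonneg (g 0 0), sq_nonneg (g 1 0), sq_nonneg (g 1 1)]
  · show (g 1 0) ^ 2 ≤ _
    nlinarith [sq_nonneg (g 0 1), sq_nonneg (g 0 0), sq_nonneg (g 1 1)]
  · show (g 1 1) ^ 2 ≤ _
    nlinarith [sq_nonneg (g 0 1), sq_nonneg (g 1 0), sq_nonneg (g 0 0)]

lemma conj_entry (h g : SL(2, ℝ)) (i j : Fin 2) {ε : ℝ}
    (hg : ∀ i j, |g i j - (1 : SL(2, ℝ)) i j| < ε) :
    |(h⁻¹ * g * h) i j - (1 : SL(2, ℝ)) i j| ≤ 4 * nrm h ^ 2 * ε := by
  have h1 : (1 : SL(2, ℝ)) i j = (h⁻¹ * 1 * h) i j := by simp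
  rw [h1]
  simp only [mul_apply']
  have hb : ∀ k l : Fin 2, |h⁻¹ i k * (g k l - (1 : SL(2, ℝ)) k l) * h l j| ≤ nrm h ^ 2 * ε := by
    intro k l
    rw [abs_mul, abs_mul]
    have h2 := abs_entry_le h⁻¹ i k
    rw [nrm_inv] at h2
    have h3 := abs_entry_le h l j
    have h4 := (hg k l).le
    calc |h⁻¹ i k| * |g k l - (1 : SL(2, ℝ)) k l| * |h l j| ≤ nrm h * ε * nrm h := by
          apply mul_le_mul _ h3 (abs_nonneg _) (by
            have := (abs_nonneg _).trans h4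
            have := nrm_nonneg h
            positivity)
          exact mul_le_mul h2 h4 (abs_nonneg _) (nrm_nonneg h)
      _ = nrm h ^ 2 * ε := by ring
  have e : ((h⁻¹ i 0 * g 0 0 + h⁻¹ i 1 * g 1 0) * h 0 j + (h⁻¹ i 0 * g 0 1 + h⁻¹ i 1 * g 1 1) * h 1 j) -
      ((h⁻¹ i 0 * (1 : SL(2, ℝ)) 0 0 + h⁻¹ i 1 * (1 : SL(2, ℝ)) 1 0) * h 0 j +
        (h⁻¹ i 0 * (1 : SL(2, ℝ)) 0 1 + h⁻¹ i 1 * (1 : SL(2, ℝ)) 1 1) * h 1 j) =
      h⁻¹ i 0 * (g 0 0 - (1 : SL(2, ℝ)) 0 0) * h 0 j + h⁻¹ i 1 * (g 1 0 - (1 : SL(2, ℝ)) 1 0) * h 0 j +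
      h⁻¹ i 0 * (g 0 1 - (1 : SL(2, ℝ)) 0 1) * h 1 j +
        h⁻¹ i 1 * (g 1 1 - (1 : SL(2, ℝ)) 1 1) * h 1 j := by ring
  rw [e]
  refine (abs_add_le _ _).trans ?_
  refine (add_le_add (abs_add_le _ _) le_rfl).trans ?_
  refine (add_le_add (add_le_add (abs_add_le _ _) le_rfl) le_rfl).trans ?_
  have a1 := hb 0 0
  have a2 := hb 1 0
  have a3 := hb 0 1
  have a4 := hb 1 1
  linarith

theorem conj_inv (w : ι → ℝ) (A : ι → SL(2, ℝ)) (hw : IsWt w) (h : SL(2, ℝ)) :
    lam w (fun i => h * A i * h⁻¹) = lam w A ∧ hent w (fun i => h * A i * h⁻¹) = hent w A ∧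
    (NoInv A → NoInv (fun i => h * A i * h⁻¹)) ∧
    (∀ ε, Disc ε (grp A) → ∃ ε', Disc ε' (grp fun i => h * A i * h⁻¹)) ∧
    (∀ s : ℝ, 0 ≤ s → (Summable fun g : grp A => nrm (g : SL(2, ℝ)) ^ (-(2 * s))) →
      Summable fun g : grp (fun i => h * A i * h⁻¹) => nrm (g : SL(2, ℝ)) ^ (-(2 * s))) := by
  refine ⟨?_, ?_, ?_, ?_, ?_⟩
  · apply le_antisymm
    · exact lam_cj_le hw A h
    · have := lam_cj_le hw (cj h A) h⁻¹
      rwa [cj_cj] at this
  · unfold hent HW
    congr 1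
    funext n
    congr 1
    apply Hs_congr
    intro u v
    have h1 := word_cj h A u
    have h2 := word_cj h A v
    unfold cj at h1 h2
    rw [h1, h2]
    constructor
    · intro h3
      exact mul_left_cancel (mul_right_cancel h3)
    · intro h3
      rw [h3]
  · intro hN η hη hinv
    have hm := measurable_circ h⁻¹
    have hprob : IsProbabilityMeasure (η.map (circ h⁻¹)) :=
      Measure.isProbabilityMeasure_map hm.aemeasurable
    refine hN (η.map (circ h⁻¹)) hprob fun i => ?_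
    rw [Measure.map_map (measurable_circ _) hm]
    have e : circ (A i) ∘ circ h⁻¹ = circ h⁻¹ ∘ circ (h * A i * h⁻¹) := by
      funext z
      simp only [Function.comp]
      rw [← circ_mul, ← circ_mul]
      congr 1
      group
    rw [e, ← Measure.map_map hm (measurable_circ _), hinv i]
  · intro ε hd
    have hnp := nrm_pos h
    have hpos : 0 < ε / (8 * nrm h ^ 2) := by
      have := hd.1
      positivity
    refine ⟨ε / (8 * nrm h ^ 2), hpos, fun g hg hsmall => ?_⟩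
    have h1 := grp_cj_le A h (g := g) hg
    have h2 := hd.2 _ h1 (fun i j => by
      refine lt_of_le_of_lt (conj_entry h g i j hsmall) ?_
      have h3 : 4 * nrm h ^ 2 * (ε / (8 * nrm h ^ 2)) = ε / 2 := by
        field_simp
        ring
      rw [h3]
      linarith [hd.1])
    have h3 : g = h * (h⁻¹ * g * h) * h⁻¹ := by group
    rw [h3, h2]
    group
  · intro s hs hsum
    set φ : grp (fun i => h * A i * h⁻¹) → grp A := fun g =>
      ⟨h⁻¹ * (g : SL(2, ℝ)) * h, grp_cj_le A h g.2⟩ with hφ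
    have hinj : Function.Injective φ := by
      intro a b hab
      have h1 := congrArg Subtype.val hab
      simp only [hφ] at h1
      exact Subtype.ext (mul_left_cancel (mul_right_cancel h1))
    have h1 := (hsum.comp_injective hinj).mul_left ((nrm h ^ 2) ^ (2 * s))
    refine Summable.of_nonneg_of_le (fun g => Real.rpow_nonneg (nrm_nonneg _) _) ?_ h1
    intro g
    simp only [Function.comp, hφ]
    have h2 : nrm (h⁻¹ * (g : SL(2, ℝ)) * h) ≤ nrm h ^ 2 * nrm (g : SL(2, ℝ)) := by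
      have h3 := nrm_mul_le (h⁻¹ * (g : SL(2, ℝ))) h
      have h4 := nrm_mul_le h⁻¹ (g : SL(2, ℝ))
      rw [nrm_inv] at h4
      calc _ ≤ nrm (h⁻¹ * (g : SL(2, ℝ))) * nrm h := h3
        _ ≤ (nrm h * nrm (g : SL(2, ℝ))) * nrm h := mul_le_mul_of_nonneg_right h4 (nrm_nonneg h)
        _ = _ := by ring
    have hgp := nrm_pos (g : SL(2, ℝ))
    have hhp := nrm_pos h
    have hcp := nrm_pos (h⁻¹ * (g : SL(2, ℝ)) * h)
    rw [Real.rpow_neg hgp.le, Real.rpow_neg hcp.le, inv_eq_one_div, ← div_eq_mul_inv,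
      div_le_div_iff₀ (Real.rpow_pos_of_pos hgp _) (Real.rpow_pos_of_pos hcp _), one_mul,
      ← Real.mul_rpow (by positivity) hgp.le]
    exact Real.rpow_le_rpow hcp.le h2 (by positivity)

end

end Pool.Agent.Helper97.Fuchs.H11
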