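import Pool.Agent.Helper97.Fuchs.H11.EntUpper

/-!
# Cost of the insertions (FU-D5c)
-/

namespace Pool.Agent.Helper97.Fuchs.H11

open MeasureTheory Matrix UpperHalfPlane Filter Topology
open scoped MatrixGroups ENNReal BigOperators

noncomputable section

variable {ι : Type} [Fintype ι]

lemma Hs_unit {Ω : Type} [Fintype Ω] (P : Ω → ℝ) (hP1 : ∑ ω, P ω = 1) :
    Hs P (fun _ => ()) = 0 := by
  unfold Hs
  apply Finset.sum_eq_zero
  intro p _
  simp [hP1]

lemma log_nrm_mul_le (g h : SL(2, ℝ)) :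
    Real.log (nrm (g * h)) ≤ Real.log (nrm g) + Real.log (nrm h) := by
  rw [← Real.log_mul (nrm_pos g).ne' (nrm_pos h).ne']
  exact Real.log_le_log (nrm_pos _) (nrm_mul_le g h)

lemma nrm_U_le (N : ℕ) : nrm (U (N : ℝ)) ≤ N + 2 := by
  apply le_of_sq_le_sq' _ (by positivity)
  rw [nrm_sq]
  have h : (U (N : ℝ)) 0 0 ^ 2 + (U (N : ℝ)) 0 1 ^ 2 + (U (N : ℝ)) 1 0 ^ 2 +
      (U (N : ℝ)) 1 1 ^ 2 = 2 + (N : ℝ) ^ 2 := by
    simp [U]
    ring
  rw [h]
  have : (0 : ℝ) ≤ N := Nat.cast_nonneg N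
  nlinarith

omit [Fintype ι] in
lemma log_preIns_le (A : ι → SL(2, ℝ)) (N M l : ℕ)
    (p : (Fin (l * M) → ι) × (Fin l → Fin M)) (k : ℕ) (hk : k ≤ l) (R : SL(2, ℝ)) :
    Real.log (nrm (preIns A N (pat M l p.2) p.1 (tm M l p.2 k) * R)) ≤
      ∑ j ∈ Finset.range k, ((if h : j < l then
        Real.log (nrm (Binc A M l p ⟨j, h⟩)) else 0) + Real.log (N + 2)) + Real.log (nrm R) := by
  induction k generalizing R with
  | zero => simp only [tm, preIns_zero, Finset.range_zero, Finset.sum_empty, one_mul, zero_add,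
      le_refl]
  | succ k ih =>
    have h1 := preIns_tm A N M l p ⟨k, by omega⟩
    simp only at h1
    rw [h1, Finset.sum_range_succ, dif_pos (by omega : k < l), mul_assoc]
    have h2 := ih (by omega) (Binc A M l p ⟨k, by omega⟩ * U N * R)
    have h3 := log_nrm_mul_le (Binc A M l p ⟨k, by omega⟩ * U N) R
    have h3' := log_nrm_mul_le (Binc A M l p ⟨k, by omega⟩) (U N)
    have h4 : Real.log (nrm (U (N : ℝ))) ≤ Real.log (N + 2) :=
      Real.log_le_log (nrm_pos _) (nrm_U_le N)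
    linarith

/-- law of the logarithm of the norm of a block -/
lemma Ex_log_block (w : ι → ℝ) (A : ι → SL(2, ℝ)) (hw : ∑ i, w i = 1) (n a b : ℕ) (hab : a ≤ b)
    (hb : b ≤ n) :
    Ex w n (fun u => Real.log (nrm ((pre A u a)⁻¹ * pre A u b))) = L w A (b - a) := by
  obtain ⟨m, rfl⟩ := Nat.exists_eq_add_of_le hab
  rw [Nat.add_sub_cancel_left, L, ← Ex_block w hw n a m hb]
  unfold Ex
  apply Finset.sum_congr rfl
  intro u _
  simp only
  rw [pre_eq A u a m hb, inv_mul_cancel_left]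

lemma Ex_add' (w : ι → ℝ) (n : ℕ) (F G : (Fin n → ι) → ℝ) :
    Ex w n (fun u => F u + G u) = Ex w n F + Ex w n G := by
  unfold Ex
  rw [← Finset.sum_add_distrib]
  exact Finset.sum_congr rfl fun u _ => by ring

lemma Ex_sum' (w : ι → ℝ) (n : ℕ) {κ : Type} (s : Finset κ) (F : κ → (Fin n → ι) → ℝ) :
    Ex w n (fun u => ∑ j ∈ s, F j u) = ∑ j ∈ s, Ex w n (F j) := by
  unfold Ex
  simp only [Finset.mul_sum]
  rw [Finset.sum_comm]

/-- expected cost for fixed insertion times -/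
lemma cost_fixed (w : ι → ℝ) (A : ι → SL(2, ℝ)) (hw : IsWt w) {lam' C : ℝ}
    (hL : ∀ n : ℕ, L w A n ≤ lam' * n + C) (N M l : ℕ) (τ : Fin l → Fin M) :
    Ex w (l * M) (fun u => Real.log (nrm (Wins A N M l (u, τ)))) ≤
      lam' * (l * M : ℕ) + (l + 1) * C + l * Real.log (N + 2) := by
  have h1 : ∀ u, Real.log (nrm (Wins A N M l (u, τ))) ≤
      (∑ j ∈ Finset.range l, ((if h : j < l then
        Real.log (nrm (Binc A M l (u, τ) ⟨j, h⟩)) else 0) + Real.log (N + 2))) +
      Real.log (nrm ((pre A u (tm M l τ l))⁻¹ * pre A u (l * M))) := by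
    intro u
    rw [Wins_eq, pre_full]
    exact log_preIns_le A N M l (u, τ) l le_rfl ((pre A u (tm M l τ l))⁻¹ * word A u)
  refine (Ex_mono' hw _ h1).trans ?_
  have htl : tm M l τ l ≤ l * M := tm_le_mul τ l le_rfl
  rw [Ex_add', Ex_log_block w A hw.sum _ _ _ htl le_rfl, Ex_sum']
  have h4 : ∀ j ∈ Finset.range l, Ex w (l * M) (fun u => (if h : j < l then
      Real.log (nrm (Binc A M l (u, τ) ⟨j, h⟩)) else 0) + Real.log (N + 2)) ≤
      lam' * ((tm M l τ (j + 1) : ℝ) - tm M l τ j) + C + Real.log (N + 2) := by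
    intro j hj
    rw [Finset.mem_range] at hj
    rw [Ex_add', Ex_const w hw.sum]
    have hlt := tm_lt τ ⟨j, hj⟩
    have hsucc := tm_succ τ ⟨j, hj⟩
    have hwin := win_le τ ⟨j, hj⟩
    simp only at hlt hsucc hwin
    have h5 : tm M l τ j ≤ tm M l τ (j + 1) := by omega
    have h6 := Ex_log_block w A hw.sum (l * M) (tm M l τ j) (tm M l τ (j + 1)) h5 (by omega)
    have h7 : Ex w (l * M) (fun u => if h : j < l then
        Real.log (nrm (Binc A M l (u, τ) ⟨j, h⟩)) else 0) =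
        L w A (tm M l τ (j + 1) - tm M l τ j) := by
      rw [← h6]
      unfold Ex
      apply Finset.sum_congr rfl
      intro u _
      simp only
      rw [dif_pos hj]
      rfl
    rw [h7]
    have h8 := hL (tm M l τ (j + 1) - tm M l τ j)
    rw [Nat.cast_sub h5] at h8
    linarith
  have h9 := Finset.sum_le_sum h4
  have h10 : ∑ j ∈ Finset.range l, (lam' * ((tm M l τ (j + 1) : ℝ) - tm M l τ j) + C +
      Real.log (N + 2)) = lam' * tm M l τ l + l * C + l * Real.log (N + 2) := by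
    rw [Finset.sum_add_distrib, Finset.sum_add_distrib, ← Finset.mul_sum,
      Finset.sum_range_sub (fun j => (tm M l τ j : ℝ))]
    simp [tm]
  have h11 := hL (l * M - tm M l τ l)
  rw [Nat.cast_sub htl] at h11
  rw [h10] at h9
  linarith

theorem ent_cost (w : ι → ℝ) (A : ι → SL(2, ℝ)) (hw : IsWt w) (hU : U 1 ∈ grp A) {lam' C : ℝ}
    (hL : ∀ n : ℕ, L w A n ≤ lam' * n + C) (hC : 0 ≤ C) {s : ℝ} (hs : 0 ≤ s)
    (hsum : Summable fun g : grp A => nrm (g : SL(2, ℝ)) ^ (-(2 * s))) (N M l : ℕ) (hM : 1 ≤ M) :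
    Hs (wtIns w M l) (fun p => Wins A N M l p)
      ≤ 2 * s * (lam' * (l * M : ℕ) + (l + 1) * C + l * Real.log (N + 2)) +
        Real.log (∑' g : grp A, nrm (g : SL(2, ℝ)) ^ (-(2 * s))) := by
  classical
  set P := wtIns w M l with hPdef
  have hP0 : ∀ p, 0 < P p := wtIns_pos hw hM
  have hP1 : ∑ p, P p = 1 := wtIns_sum hw hM
  have hWmem : ∀ p, Wins A N M l p ∈ grp A := fun p => by
    rw [Wins, ← preIns_full]
    exact preIns_mem A hU _ _ _
  set T : ℝ := ∑' g : grp A, nrm (g : SL(2, ℝ)) ^ (-(2 * s)) with hT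
  have hterm : ∀ g : SL(2, ℝ), 0 < nrm g ^ (-(2 * s)) := fun g => Real.rpow_pos_of_pos (nrm_pos g) _
  have hTpos : 0 < T := by
    have h1 : nrm ((1 : grp A) : SL(2, ℝ)) ^ (-(2 * s)) ≤ T :=
      hsum.le_tsum 1 (fun g _ => (hterm _).le)
    exact lt_of_lt_of_le (hterm _) h1
  have hg := gibbs P (fun p => (hP0 p).le) hP1 (fun p => Wins A N M l p)
    (fun _ => ()) (fun g _ => nrm g ^ (-(2 * s)) / T)
    (fun g _ => div_nonneg (hterm g).le hTpos.le)
    (fun p _ => div_pos (hterm _) hTpos)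
    (fun p s' hs' => by
      rw [← Finset.sum_div, div_le_one hTpos]
      have hmem : ∀ g ∈ s', g ∈ grp A := by
        intro g hg
        obtain ⟨p', rfl⟩ := hs' g hg
        exact hWmem p'
      rw [← Finset.sum_attach]
      have h2 : ∑ g ∈ s'.attach, nrm (g : SL(2, ℝ)) ^ (-(2 * s)) =
          ∑ g ∈ s'.attach.image (fun g => (⟨g.1, hmem g.1 g.2⟩ : grp A)),
            nrm (g : SL(2, ℝ)) ^ (-(2 * s)) := by
        rw [Finset.sum_image]
        intro a _ b _ hab
        simp only [Subtype.mk.injEq] at hab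
        exact Subtype.ext hab
      rw [h2]
      exact hsum.sum_le_tsum _ (fun g _ => (hterm _).le))
  have e1 : Hs P (fun p => (Wins A N M l p, ())) = Hs P (fun p => Wins A N M l p) :=
    Hs_congr P _ _ (fun p p' => by simp)
  have e2 : Hs P (fun _ => ()) = 0 := Hs_unit P hP1
  rw [e1, e2, sub_zero] at hg
  refine hg.trans ?_
  have h3 : ∀ p, P p * (-Real.log (nrm (Wins A N M l p) ^ (-(2 * s)) / T)) =
      2 * s * (P p * Real.log (nrm (Wins A N M l p))) + P p * Real.log T := by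
    intro p
    rw [Real.log_div (hterm _).ne' hTpos.ne', Real.log_rpow (nrm_pos _)]
    ring
  rw [Finset.sum_congr rfl (fun p _ => h3 p), Finset.sum_add_distrib, ← Finset.sum_mul, hP1,
    one_mul, ← Finset.mul_sum]
  have h4 : ∑ p, P p * Real.log (nrm (Wins A N M l p)) ≤
      lam' * (l * M : ℕ) + (l + 1) * C + l * Real.log (N + 2) := by
    rw [Fintype.sum_prod_type, Finset.sum_comm]
    have h5 : ∀ τ : Fin l → Fin M, ∑ u : Fin (l * M) → ι,
        P (u, τ) * Real.log (nrm (Wins A N M l (u, τ))) ≤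
          (1 / (M : ℝ) ^ l) * (lam' * (l * M : ℕ) + (l + 1) * C + l * Real.log (N + 2)) := by
      intro τ
      have h6 := cost_fixed w A hw hL N M l τ
      have h7 : ∑ u : Fin (l * M) → ι, P (u, τ) * Real.log (nrm (Wins A N M l (u, τ))) =
          (1 / (M : ℝ) ^ l) * Ex w (l * M) (fun u => Real.log (nrm (Wins A N M l (u, τ)))) := by
        unfold Ex
        rw [Finset.mul_sum]
        apply Finset.sum_congr rfl
        intro u _
        rw [hPdef]
        unfold wtIns
        simp only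
        ring
      rw [h7]
      exact mul_le_mul_of_nonneg_left h6 (by positivity)
    refine (Finset.sum_le_sum fun τ _ => h5 τ).trans ?_
    rw [Finset.sum_const, Finset.card_univ, Fintype.card_fun, Fintype.card_fin,
      Fintype.card_fin, nsmul_eq_mul]
    have hM0 : (0 : ℝ) < M := by exact_mod_cast hM
    have h8 : ∀ x : ℝ, ((M ^ l : ℕ) : ℝ) * (1 / (M : ℝ) ^ l * x) = x := by
      intro x
      push_cast
      field_simp
    rw [h8]
  have h9 := mul_le_mul_of_nonneg_left h4 (by positivity : 0 ≤ 2 * s)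
  linarith

end

end Pool.Agent.Helper97.Fuchs.H11
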