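import Pool.Agent.Helper97.Fuchs.Defs4

/-!
# Finite Shannon entropy (FU-G)
-/

namespace Pool.Agent.Helper97.Fuchs.H11

open MeasureTheory Matrix UpperHalfPlane Filter Topology
open scoped MatrixGroups ENNReal BigOperators

noncomputable section

variable {ι : Type} [Fintype ι]

theorem Hs_congr {Ω α β : Type} [Fintype Ω] (P : Ω → ℝ) (X : Ω → α) (Y : Ω → β)
    (h : ∀ ω ω', X ω = X ω' ↔ Y ω = Y ω') : Hs P X = Hs P Y := by
  classical
  unfold Hs
  apply Finset.sum_congr rfl
  intro ω _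
  congr 3
  apply Finset.sum_congr _ (fun _ _ => rfl)
  ext ω'
  simp only [Finset.mem_filter, Finset.mem_univ, true_and]
  exact h ω' ω

/-- the probability of the fibre -/
lemma fib_ge {Ω α : Type} [Fintype Ω] (P : Ω → ℝ) (hP : ∀ ω, 0 ≤ P ω) (X : Ω → α) (ω : Ω) :
    P ω ≤ open Classical in ∑ ω' with X ω' = X ω, P ω' := by
  classical
  exact Finset.single_le_sum (f := P) (fun i _ => hP i)
    (by simp : ω ∈ Finset.univ.filter fun ω' => X ω' = X ω)

lemma fib_le_one {Ω α : Type} [Fintype Ω] (P : Ω → ℝ) (hP : ∀ ω, 0 ≤ P ω) (hP1 : ∑ ω, P ω = 1)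
    (X : Ω → α) (ω : Ω) :
    (open Classical in ∑ ω' with X ω' = X ω, P ω') ≤ 1 := by
  classical
  rw [← hP1]
  exact Finset.sum_le_sum_of_subset_of_nonneg (Finset.filter_subset _ _) (fun i _ _ => hP i)

theorem Hs_nonneg {Ω α : Type} [Fintype Ω] (P : Ω → ℝ) (hP : ∀ ω, 0 ≤ P ω) (hP1 : ∑ ω, P ω = 1)
    (X : Ω → α) : 0 ≤ Hs P X := by
  classical
  unfold Hs
  apply Finset.sum_nonneg
  intro ω _
  apply mul_nonneg (hP ω)
  rw [neg_nonneg]
  apply Real.log_nonpos
  · exact Finset.sum_nonneg fun i _ => hP i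
  · exact fib_le_one P hP hP1 X ω

theorem gibbs {Ω α β : Type} [Fintype Ω] (P : Ω → ℝ) (hP : ∀ ω, 0 ≤ P ω) (hP1 : ∑ ω, P ω = 1)
    (X : Ω → α) (Y : Ω → β) (q : α → β → ℝ) (hq0 : ∀ a y, 0 ≤ q a y)
    (hqpos : ∀ ω, 0 < P ω → 0 < q (X ω) (Y ω))
    (hq1 : ∀ ω, ∀ s : Finset α, (∀ a ∈ s, ∃ ω', X ω' = a) → ∑ a ∈ s, q a (Y ω) ≤ 1) :
    Hs P (fun ω => (X ω, Y ω)) - Hs P Y ≤ ∑ ω, P ω * (-Real.log (q (X ω) (Y ω))) := by
  classical
  -- pair probability and marginal
  set pp : Ω → ℝ := fun ω => ∑ ω' with (X ω', Y ω') = (X ω, Y ω), P ω' with hpp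
  set py : Ω → ℝ := fun ω => ∑ ω' with Y ω' = Y ω, P ω' with hpy
  have e1 : Hs P (fun ω => (X ω, Y ω)) = ∑ ω, P ω * (-Real.log (pp ω)) := by
    unfold Hs
    apply Finset.sum_congr rfl
    intro ω _
    rw [hpp]
    congr 3
    apply Finset.sum_congr _ (fun _ _ => rfl)
    ext ω'
    simp
  have e2 : Hs P Y = ∑ ω, P ω * (-Real.log (py ω)) := by
    unfold Hs
    apply Finset.sum_congr rfl
    intro ω _
    rw [hpy]
  rw [e1, e2, ← Finset.sum_sub_distrib]
  have hpp_ge : ∀ ω, P ω ≤ pp ω := fun ω =>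
    Finset.single_le_sum (f := P) (fun i _ => hP i) (by simp)
  have hpy_ge : ∀ ω, P ω ≤ py ω := fun ω =>
    Finset.single_le_sum (f := P) (fun i _ => hP i) (by simp)
  -- termwise: P (-log pp + log py) ≤ P (-log q) + (P * q * py / pp - P)
  have key : ∀ ω, P ω * (-Real.log (pp ω)) - P ω * (-Real.log (py ω)) ≤
      P ω * (-Real.log (q (X ω) (Y ω))) + (P ω * (q (X ω) (Y ω) * py ω / pp ω) - P ω) := by
    intro ω
    rcases (hP ω).eq_or_lt with h0 | h0
    · rw [← h0]; simp
    · have hq := hqpos ω h0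
      have h1 : 0 < pp ω := lt_of_lt_of_le h0 (hpp_ge ω)
      have h2 : 0 < py ω := lt_of_lt_of_le h0 (hpy_ge ω)
      have h3 : 0 < q (X ω) (Y ω) * py ω / pp ω := by positivity
      have h4 := Real.log_le_sub_one_of_pos h3
      rw [Real.log_div (by positivity) h1.ne', Real.log_mul hq.ne' h2.ne'] at h4
      nlinarith [mul_le_mul_of_nonneg_left h4 h0.le]
  refine (Finset.sum_le_sum fun ω _ => key ω).trans ?_
  rw [Finset.sum_add_distrib, Finset.sum_sub_distrib, hP1]
  have main : ∑ ω, P ω * (q (X ω) (Y ω) * py ω / pp ω) ≤ 1 := by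
    -- group by Y, then by X
    have step1 : ∀ y ∈ Finset.univ.image Y,
        ∑ ω with Y ω = y, P ω * (q (X ω) (Y ω) * py ω / pp ω) ≤
          ∑ ω with Y ω = y, P ω := by
      intro y hy
      obtain ⟨ω0, _, hω0⟩ := Finset.mem_image.1 hy
      set S : Finset Ω := Finset.univ.filter fun ω => Y ω = y with hS
      have hpyS : ∀ ω ∈ S, py ω = ∑ ω' ∈ S, P ω' := by
        intro ω hω
        rw [hS, Finset.mem_filter] at hω
        show ∑ ω' with Y ω' = Y ω, P ω' = _
        rw [hω.2]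
      rw [← Finset.sum_fiberwise_of_maps_to (s := S) (t := S.image X) (g := X)
        (fun x hx => Finset.mem_image_of_mem X hx)]
      have step2 : ∀ a ∈ S.image X, ∑ ω ∈ S with X ω = a,
          P ω * (q (X ω) (Y ω) * py ω / pp ω) ≤ q a y * ∑ ω' ∈ S, P ω' := by
        intro a _
        have h5 : ∀ ω ∈ S.filter (fun ω => X ω = a),
            P ω * (q (X ω) (Y ω) * py ω / pp ω) =
              P ω * (q a y * (∑ ω' ∈ S, P ω') / ∑ ω' ∈ S.filter (fun ω => X ω = a), P ω') := by
          intro ω hω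
          rw [Finset.mem_filter] at hω
          have h6 : Y ω = y := by
            have := hω.1
            rw [hS, Finset.mem_filter] at this
            exact this.2
          rw [hpyS ω hω.1, h6, hω.2]
          congr 2
          show ∑ ω' with (X ω', Y ω') = (X ω, Y ω), P ω' = _
          apply Finset.sum_congr _ (fun _ _ => rfl)
          ext ω'
          simp only [Finset.mem_filter, Finset.mem_univ, true_and, Prod.mk.injEq, hS, h6, hω.2]
          exact and_comm
        rw [Finset.sum_congr rfl h5, ← Finset.sum_mul]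
        have h7 : 0 ≤ ∑ ω' ∈ S.filter (fun ω => X ω = a), P ω' :=
          Finset.sum_nonneg fun i _ => hP i
        rcases h7.eq_or_lt with h8 | h8
        · rw [← h8]
          simp only [zero_mul]
          exact mul_nonneg (hq0 _ _) (Finset.sum_nonneg fun i _ => hP i)
        · rw [mul_div_cancel₀ _ h8.ne']
      refine (Finset.sum_le_sum step2).trans ?_
      rw [← Finset.sum_mul]
      have h9 := hq1 ω0 (S.image X) (by
        intro a ha
        obtain ⟨ω', _, h'⟩ := Finset.mem_image.1 ha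
        exact ⟨ω', h'⟩)
      rw [hω0] at h9
      calc (∑ a ∈ S.image X, q a y) * ∑ ω' ∈ S, P ω' ≤ 1 * ∑ ω' ∈ S, P ω' :=
            mul_le_mul_of_nonneg_right h9 (Finset.sum_nonneg fun i _ => hP i)
        _ = _ := one_mul _
    have h10 := Finset.sum_le_sum step1
    rw [Finset.sum_fiberwise_of_maps_to (s := Finset.univ) (t := Finset.univ.image Y) (g := Y)
      (fun x hx => Finset.mem_image_of_mem Y hx),
      Finset.sum_fiberwise_of_maps_to (s := Finset.univ) (t := Finset.univ.image Y) (g := Y)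
      (fun x hx => Finset.mem_image_of_mem Y hx), hP1] at h10
    exact h10
  linarith

theorem Hs_le_pair {Ω α β : Type} [Fintype Ω] (P : Ω → ℝ) (hP : ∀ ω, 0 ≤ P ω)
    (hP1 : ∑ ω, P ω = 1) (X : Ω → α) (Y : Ω → β) :
    Hs P Y ≤ Hs P (fun ω => (X ω, Y ω)) := by
  classical
  unfold Hs
  apply Finset.sum_le_sum
  intro ω _
  rcases (hP ω).eq_or_lt with h0 | h0
  · rw [← h0]; simp
  · apply mul_le_mul_of_nonneg_left _ h0.le
    rw [neg_le_neg_iff]
    apply Real.log_le_log
    · exact lt_of_lt_of_le h0 (fib_ge P hP (fun ω => (X ω, Y ω)) ω)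
    · apply Finset.sum_le_sum_of_subset_of_nonneg
      · intro ω' hω'
        simp only [Finset.mem_filter, Finset.mem_univ, true_and, Prod.mk.injEq] at hω' ⊢
        exact hω'.2
      · intro i _ _
        exact hP i

end

end Pool.Agent.Helper97.Fuchs.H11
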