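import Pool.Agent.Helper97.Fuchs.H11.Entropy
import Pool.Agent.Helper97.Fuchs.H11.Words

/-!
# Lower bound for the entropy of the insertion positions (FU-D5a, second part)
-/

namespace Pool.Agent.Helper97.Fuchs.H11

open MeasureTheory Matrix UpperHalfPlane Filter Topology
open scoped MatrixGroups ENNReal BigOperators

noncomputable section

variable {ι : Type} [Fintype ι]

lemma wtIns_pos {w : ι → ℝ} (hw : IsWt w) {M l : ℕ} (hM : 1 ≤ M)
    (p : (Fin (l * M) → ι) × (Fin l → Fin M)) : 0 < wtIns w M l p := by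
  unfold wtIns
  have : (0 : ℝ) < M := by exact_mod_cast hM
  exact div_pos (wt_pos' hw _) (by positivity)

/-- marginal of the letters -/
lemma wtIns_marg (w : ι → ℝ) {M l : ℕ} (hM : 1 ≤ M) (g : (Fin (l * M) → ι) → ℝ) :
    ∑ p, wtIns w M l p * g p.1 = ∑ u, wt w u * g u := by
  classical
  have hM' : (0 : ℝ) < (M : ℝ) ^ l := by
    have : (0 : ℝ) < M := by exact_mod_cast hM
    positivity
  rw [Fintype.sum_prod_type]
  apply Finset.sum_congr rfl
  intro u _
  unfold wtIns
  simp only [Finset.sum_const, Finset.card_univ, Fintype.card_fun, Fintype.card_fin,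
    nsmul_eq_mul]
  push_cast
  field_simp

lemma wtIns_sum {w : ι → ℝ} (hw : IsWt w) {M l : ℕ} (hM : 1 ≤ M) :
    ∑ p, wtIns w M l p = 1 := by
  have h := wtIns_marg w (l := l) hM (fun _ => 1)
  simp only [mul_one] at h
  rw [h, wt_sum_one w hw.sum]

/-- number of positions in window `j` with the same natural position -/
def Nj (A : ι → SL(2, ℝ)) (M l : ℕ) (u : Fin (l * M) → ι) (j : Fin l) (t : Fin M) : ℕ :=
  open Classical in (Finset.univ.filter fun t' : Fin M =>
    pre A u ((j : ℕ) * M + (t' : ℕ) + 1) = pre A u ((j : ℕ) * M + (t : ℕ) + 1)).card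

omit [Fintype ι] in
lemma Nj_pos (A : ι → SL(2, ℝ)) (M l : ℕ) (u : Fin (l * M) → ι) (j : Fin l) (t : Fin M) :
    0 < Nj A M l u j t := by
  classical
  unfold Nj
  apply Finset.card_pos.2
  exact ⟨t, by simp⟩

/-- probability of the fibre of `(V, u)` -/
lemma fib_Vu (w : ι → ℝ) (A : ι → SL(2, ℝ)) {M l : ℕ}
    (p : (Fin (l * M) → ι) × (Fin l → Fin M)) :
    (open Classical in ∑ p' with (Vpos A M l p', p'.1) = (Vpos A M l p, p.1), wtIns w M l p') =
      wt w p.1 / (M : ℝ) ^ l * ∏ j, (Nj A M l p.1 j (p.2 j) : ℝ) := by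
  classical
  obtain ⟨u, τ⟩ := p
  have h1 : (Finset.univ.filter fun p' : (Fin (l * M) → ι) × (Fin l → Fin M) =>
      (Vpos A M l p', p'.1) = (Vpos A M l (u, τ), u)) =
      ({u} : Finset _) ×ˢ Fintype.piFinset (fun j : Fin l => Finset.univ.filter fun t' : Fin M =>
        pre A u ((j : ℕ) * M + (t' : ℕ) + 1) = pre A u ((j : ℕ) * M + (τ j : ℕ) + 1)) := by
    ext p'
    obtain ⟨u', τ'⟩ := p'
    simp only [Finset.mem_filter, Finset.mem_univ, true_and, Prod.mk.injEq, Finset.mem_product,
      Finset.mem_singleton, Fintype.mem_piFinset]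
    constructor
    · rintro ⟨h2, h3⟩
      subst h3
      refine ⟨rfl, fun j => ?_⟩
      exact congrFun h2 j
    · rintro ⟨h2, h3⟩
      subst h2
      refine ⟨?_, rfl⟩
      funext j
      exact h3 j
  rw [h1]
  have h2 : ∀ p' ∈ ({u} : Finset (Fin (l * M) → ι)) ×ˢ
      Fintype.piFinset (fun j : Fin l => Finset.univ.filter fun t' : Fin M =>
        pre A u ((j : ℕ) * M + (t' : ℕ) + 1) = pre A u ((j : ℕ) * M + (τ j : ℕ) + 1)),
      wtIns w M l p' = wt w u / (M : ℝ) ^ l := by
    intro p' hp'
    rw [Finset.mem_product, Finset.mem_singleton] at hp'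
    unfold wtIns
    rw [hp'.1]
  rw [Finset.sum_congr rfl h2, Finset.sum_const, Finset.card_product, Finset.card_singleton,
    one_mul, Fintype.card_piFinset, nsmul_eq_mul, mul_comm]
  congr 1
  push_cast
  rfl

/-- expected number of coincidences in one window -/
lemma Nj_mean {w : ι → ℝ} (hw : IsWt w) (A : ι → SL(2, ℝ)) {G : ℝ}
    (hG : ∀ n : ℕ, (∑ k ∈ Finset.range n, retp w A k) ≤ G) {M l : ℕ} (hM : 1 ≤ M) (j : Fin l) :
    ∑ p, wtIns w M l p * (Nj A M l p.1 j (p.2 j) : ℝ) ≤ 2 * G := by
  classical
  have hM0 : (0 : ℝ) < M := by exact_mod_cast hM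
  rw [Fintype.sum_prod_type]
  -- for fixed `u`, average over `τ`
  have h1 : ∀ u : Fin (l * M) → ι, ∑ τ : Fin l → Fin M, wtIns w M l (u, τ) *
      (Nj A M l u j (τ j) : ℝ) = wt w u * ((1 / M) * ∑ t : Fin M, (Nj A M l u j t : ℝ)) := by
    intro u
    unfold wtIns
    simp only
    rw [← Finset.mul_sum]
    have h2 : ∑ τ : Fin l → Fin M, (Nj A M l u j (τ j) : ℝ) =
        (M : ℝ) ^ (l - 1) * ∑ t : Fin M, (Nj A M l u j t : ℝ) := by
      rw [← Finset.sum_fiberwise_of_maps_to (s := (Finset.univ : Finset (Fin l → Fin M)))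
        (t := Finset.univ) (g := fun τ => τ j) (fun _ _ => Finset.mem_univ _), Finset.mul_sum]
      apply Finset.sum_congr rfl
      intro t _
      rw [Finset.sum_congr rfl (g := fun _ => (Nj A M l u j t : ℝ))]
      · rw [Finset.sum_const, nsmul_eq_mul]
        congr 1
        have h3 : (Finset.univ.filter fun τ : Fin l → Fin M => τ j = t) =
            Fintype.piFinset (fun i : Fin l => if i = j then {t} else Finset.univ) := by
          ext τ
          simp only [Finset.mem_filter, Finset.mem_univ, true_and, Fintype.mem_piFinset]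
          constructor
          · intro h i
            by_cases hi : i = j
            · subst hi; simp [h]
            · simp [hi]
          · intro h
            have := h j
            simpa using this
        rw [h3, Fintype.card_piFinset]
        have h4 : ∀ i : Fin l, (if i = j then ({t} : Finset (Fin M)) else Finset.univ).card =
            if i = j then 1 else M := by
          intro i
          split_ifs <;> simp
        simp only [h4]
        rw [Finset.prod_ite]
        simp only [Finset.prod_const_one, Finset.prod_const, one_mul]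
        have h5 : (Finset.univ.filter fun i : Fin l => ¬ i = j).card = l - 1 := by
          rw [Finset.filter_not, Finset.filter_eq', if_pos (Finset.mem_univ _),
            Finset.card_sdiff_of_subset (Finset.subset_univ _)]
          simp
        rw [h5]
        push_cast
        rfl
      · intro τ hτ
        rw [Finset.mem_filter] at hτ
        rw [hτ.2]
    rw [h2]
    have hl : 1 ≤ l := by have := j.2; omega
    have h6 : (M : ℝ) ^ l = (M : ℝ) ^ (l - 1) * M := by
      rw [← pow_succ]; congr 1; omega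
    rw [h6]
    field_simp
  rw [Finset.sum_congr rfl (fun u _ => h1 u)]
  -- swap sums
  have h7 : ∑ u : Fin (l * M) → ι, wt w u * ((1 / M) * ∑ t : Fin M, (Nj A M l u j t : ℝ)) =
      (1 / M) * ∑ t : Fin M, ∑ t' : Fin M,
        retp w A (max ((j : ℕ) * M + (t : ℕ) + 1) ((j : ℕ) * M + (t' : ℕ) + 1) -
          min ((j : ℕ) * M + (t : ℕ) + 1) ((j : ℕ) * M + (t' : ℕ) + 1)) := by
    have hb : ∀ t : Fin M, (j : ℕ) * M + (t : ℕ) + 1 ≤ l * M := by
      intro t
      have h8 := t.2
      have h9 := j.2
      calc (j : ℕ) * M + (t : ℕ) + 1 ≤ (j : ℕ) * M + M := by omega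
        _ = ((j : ℕ) + 1) * M := by ring
        _ ≤ l * M := Nat.mul_le_mul_right M h9
    have h10 : ∀ t t' : Fin M, retp w A (max ((j : ℕ) * M + (t : ℕ) + 1)
        ((j : ℕ) * M + (t' : ℕ) + 1) - min ((j : ℕ) * M + (t : ℕ) + 1)
          ((j : ℕ) * M + (t' : ℕ) + 1)) =
        ∑ u : Fin (l * M) → ι, wt w u * (if pre A u ((j : ℕ) * M + (t' : ℕ) + 1) =
          pre A u ((j : ℕ) * M + (t : ℕ) + 1) then (1 : ℝ) else 0) := by
      intro t t'
      rw [← Ex_pre_eq' w hw.sum A (l * M) _ _ (hb t) (hb t')]
      rfl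
    simp only [h10]
    rw [Finset.mul_sum]
    have h11 : ∀ u : Fin (l * M) → ι, ∀ t : Fin M, (Nj A M l u j t : ℝ) =
        ∑ t' : Fin M, (if pre A u ((j : ℕ) * M + (t' : ℕ) + 1) =
          pre A u ((j : ℕ) * M + (t : ℕ) + 1) then (1 : ℝ) else 0) := by
      intro u t
      unfold Nj
      rw [Finset.sum_boole]
    simp only [h11]
    simp only [Finset.mul_sum]
    rw [Finset.sum_comm]
    apply Finset.sum_congr rfl
    intro t _
    rw [Finset.sum_comm]
    apply Finset.sum_congr rfl
    intro t' _
    apply Finset.sum_congr rfl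
    intro u _
    ring
  rw [h7]
  -- bound the inner sum
  have h12 : ∀ t : Fin M, ∑ t' : Fin M,
      retp w A (max ((j : ℕ) * M + (t : ℕ) + 1) ((j : ℕ) * M + (t' : ℕ) + 1) -
        min ((j : ℕ) * M + (t : ℕ) + 1) ((j : ℕ) * M + (t' : ℕ) + 1)) ≤ 2 * G := by
    intro t
    have h13 : ∀ t' : Fin M, retp w A (max ((j : ℕ) * M + (t : ℕ) + 1)
        ((j : ℕ) * M + (t' : ℕ) + 1) - min ((j : ℕ) * M + (t : ℕ) + 1)
          ((j : ℕ) * M + (t' : ℕ) + 1)) ≤
        (if (t' : ℕ) ≤ t then retp w A ((t : ℕ) - t') else 0) +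
          (if (t : ℕ) ≤ t' then retp w A ((t' : ℕ) - t) else 0) := by
      intro t'
      rcases le_total (t : ℕ) (t' : ℕ) with h | h
      · rw [if_pos h]
        have e : max ((j : ℕ) * M + (t : ℕ) + 1) ((j : ℕ) * M + (t' : ℕ) + 1) -
          min ((j : ℕ) * M + (t : ℕ) + 1) ((j : ℕ) * M + (t' : ℕ) + 1) = (t' : ℕ) - t := by omega
        rw [e]
        have : 0 ≤ (if (t' : ℕ) ≤ t then retp w A ((t : ℕ) - t') else 0) := by
          split_ifs
          · exact retp_nonneg hw A _
          · exact le_rfl
        linarith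
      · rw [if_pos h]
        have e : max ((j : ℕ) * M + (t : ℕ) + 1) ((j : ℕ) * M + (t' : ℕ) + 1) -
          min ((j : ℕ) * M + (t : ℕ) + 1) ((j : ℕ) * M + (t' : ℕ) + 1) = (t : ℕ) - t' := by omega
        rw [e]
        have : 0 ≤ (if (t : ℕ) ≤ t' then retp w A ((t' : ℕ) - t) else 0) := by
          split_ifs
          · exact retp_nonneg hw A _
          · exact le_rfl
        linarith
    refine (Finset.sum_le_sum fun t' _ => h13 t').trans ?_
    rw [Finset.sum_add_distrib]
    have h14 : ∑ t' : Fin M, (if (t' : ℕ) ≤ t then retp w A ((t : ℕ) - t') else 0) ≤ G := by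
      refine le_trans ?_ (hG M)
      rw [← Finset.sum_filter]
      rw [← Finset.sum_image (s := Finset.univ.filter fun t' : Fin M => (t' : ℕ) ≤ t)
        (g := fun t' : Fin M => (t : ℕ) - t') (f := fun k => retp w A k)]
      · apply Finset.sum_le_sum_of_subset_of_nonneg
        · intro k hk
          obtain ⟨t', _, rfl⟩ := Finset.mem_image.1 hk
          rw [Finset.mem_range]
          have := t.2
          omega
        · intro k _ _
          exact retp_nonneg hw A k
      · intro a ha b hb hab
        simp only [Finset.coe_filter, Finset.mem_univ, true_and] at ha hb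
        simp only [Set.mem_ofPred_eq] at ha hb
        simp only at hab
        apply Fin.ext
        omega
    have h15 : ∑ t' : Fin M, (if (t : ℕ) ≤ t' then retp w A ((t' : ℕ) - t) else 0) ≤ G := by
      refine le_trans ?_ (hG M)
      rw [← Finset.sum_filter]
      rw [← Finset.sum_image (s := Finset.univ.filter fun t' : Fin M => (t : ℕ) ≤ t')
        (g := fun t' : Fin M => (t' : ℕ) - t) (f := fun k => retp w A k)]
      · apply Finset.sum_le_sum_of_subset_of_nonneg
        · intro k hk
          obtain ⟨t', _, rfl⟩ := Finset.mem_image.1 hk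
          rw [Finset.mem_range]
          have := t'.2
          omega
        · intro k _ _
          exact retp_nonneg hw A k
      · intro a ha b hb hab
        simp only [Finset.coe_filter, Finset.mem_univ, true_and] at ha hb
        simp only [Set.mem_ofPred_eq] at ha hb
        simp only at hab
        apply Fin.ext
        omega
    linarith
  calc (1 / (M : ℝ)) * ∑ t : Fin M, ∑ t' : Fin M,
      retp w A (max ((j : ℕ) * M + (t : ℕ) + 1) ((j : ℕ) * M + (t' : ℕ) + 1) -
        min ((j : ℕ) * M + (t : ℕ) + 1) ((j : ℕ) * M + (t' : ℕ) + 1))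
      ≤ (1 / (M : ℝ)) * ∑ _t : Fin M, 2 * G :=
        mul_le_mul_of_nonneg_left (Finset.sum_le_sum fun t _ => h12 t) (by positivity)
    _ = 2 * G := by
        rw [Finset.sum_const, Finset.card_univ, Fintype.card_fin, nsmul_eq_mul]
        field_simp

theorem ent_lower (w : ι → ℝ) (A : ι → SL(2, ℝ)) (hw : IsWt w) {G : ℝ}
    (hG : ∀ n : ℕ, (∑ k ∈ Finset.range n,
      Ex w k (fun u => open Classical in if word A u = 1 then 1 else 0)) ≤ G)
    (M l : ℕ) (hM : 1 ≤ M) :
    HW w A (l * M) + l * (Real.log M - 2 * G) ≤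
      Hs (wtIns w M l) (fun p => (Vpos A M l p, word A p.1)) := by
  classical
  have hM0 : (0 : ℝ) < M := by exact_mod_cast hM
  set P := wtIns w M l with hPdef
  have hP0 : ∀ p, 0 < P p := wtIns_pos hw hM
  have hP1 : ∑ p, P p = 1 := wtIns_sum hw hM
  -- the pair and marginal probabilities
  set a : (Fin l → SL(2, ℝ)) → SL(2, ℝ) → ℝ := fun v z =>
    ∑ p with Vpos A M l p = v ∧ word A p.1 = z, P p with ha
  set b : SL(2, ℝ) → ℝ := fun z => ∑ p with word A p.1 = z, P p with hb
  have ha0 : ∀ v z, 0 ≤ a v z := fun v z => Finset.sum_nonneg fun p _ => (hP0 p).le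
  have hb0 : ∀ z, 0 ≤ b z := fun z => Finset.sum_nonneg fun p _ => (hP0 p).le
  have hapos : ∀ p, 0 < a (Vpos A M l p) (word A p.1) := fun p =>
    lt_of_lt_of_le (hP0 p) (Finset.single_le_sum (f := P) (fun i _ => (hP0 i).le) (by simp))
  have hbpos : ∀ p : (Fin (l * M) → ι) × (Fin l → Fin M), 0 < b (word A p.1) := fun p =>
    lt_of_lt_of_le (hP0 p) (Finset.single_le_sum (f := P) (fun i _ => (hP0 i).le) (by simp))
  have hg := gibbs P (fun p => (hP0 p).le) hP1 (fun p => Vpos A M l p) (fun p => p.1)
    (fun v u => a v (word A u) / b (word A u))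
    (fun v u => div_nonneg (ha0 _ _) (hb0 _))
    (fun p _ => div_pos (hapos p) (hbpos p))
    (by
      intro p s _
      rw [← Finset.sum_div, div_le_one (hbpos p)]
      have e : ∑ v ∈ s, a v (word A p.1) =
          ∑ v ∈ s, ∑ p' ∈ (Finset.univ.filter fun p' : (Fin (l * M) → ι) × (Fin l → Fin M) =>
            word A p'.1 = word A p.1).filter (fun p' => Vpos A M l p' = v), P p' := by
        apply Finset.sum_congr rfl
        intro v _
        rw [ha]
        apply Finset.sum_congr _ (fun _ _ => rfl)
        ext p'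
        simp only [Finset.mem_filter, Finset.mem_univ, true_and]
        exact and_comm
      rw [e, hb]
      exact Finset.sum_fiberwise_le_sum_of_sum_fiber_nonneg
        (fun v _ => Finset.sum_nonneg fun i _ => (hP0 i).le))
  -- right-hand side of Gibbs
  have hr : ∑ p, P p * (-Real.log (a (Vpos A M l p) (word A p.1) / b (word A p.1))) =
      Hs P (fun p => (Vpos A M l p, word A p.1)) - HW w A (l * M) := by
    have e1 : Hs P (fun p => (Vpos A M l p, word A p.1)) =
        ∑ p, P p * (-Real.log (a (Vpos A M l p) (word A p.1))) := by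
      unfold Hs
      apply Finset.sum_congr rfl
      intro p _
      congr 3
      rw [ha]
      apply Finset.sum_congr _ (fun _ _ => rfl)
      ext p'
      simp
    have e2 : HW w A (l * M) = ∑ p, P p * (-Real.log (b (word A p.1))) := by
      have h3 : ∀ z, b z = ∑ u : Fin (l * M) → ι with word A u = z, wt w u := by
        intro z
        have h4 := wtIns_marg w (l := l) hM (fun u => if word A u = z then (1 : ℝ) else 0)
        simp only [mul_ite, mul_one, mul_zero, ← Finset.sum_filter] at h4
        exact h4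
      rw [wtIns_marg w hM (fun u => -Real.log (b (word A u)))]
      unfold HW Hs
      apply Finset.sum_congr rfl
      intro u _
      rw [h3]
      congr!
    rw [e1, e2, ← Finset.sum_sub_distrib]
    apply Finset.sum_congr rfl
    intro p _
    rw [Real.log_div (hapos p).ne' (hbpos p).ne']
    ring
  rw [hr] at hg
  -- left-hand side of Gibbs
  have hl : Hs P (fun p => (Vpos A M l p, p.1)) - Hs P (fun p => p.1) =
      l * Real.log M - ∑ j, ∑ p, P p * Real.log (Nj A M l p.1 j (p.2 j)) := by
    have e1 : Hs P (fun p => (Vpos A M l p, p.1)) = ∑ p, P p * (-Real.log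
        (wt w p.1 / (M : ℝ) ^ l * ∏ j, (Nj A M l p.1 j (p.2 j) : ℝ))) := by
      unfold Hs
      apply Finset.sum_congr rfl
      intro p _
      have h8 := fib_Vu w A p
      rw [← h8]
      congr!
    have e2 : Hs P (fun p => p.1) = ∑ p, P p * (-Real.log (wt w p.1)) := by
      unfold Hs
      apply Finset.sum_congr rfl
      intro p _
      congr 3
      have h4 := wtIns_marg w (l := l) hM (fun u => if u = p.1 then (1 : ℝ) else 0)
      simp only [mul_ite, mul_one, mul_zero, ← Finset.sum_filter] at h4
      have h9 : ∑ u : Fin (l * M) → ι with u = p.1, wt w u = wt w p.1 := by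
        simp [Finset.filter_eq']
      rw [h9] at h4
      rw [← h4]
      congr!
    rw [e1, e2, ← Finset.sum_sub_distrib, Finset.sum_comm]
    have h5 : (l : ℝ) * Real.log M = ∑ p, P p * (l * Real.log M) := by
      rw [← Finset.sum_mul, hP1, one_mul]
    rw [h5, ← Finset.sum_sub_distrib]
    apply Finset.sum_congr rfl
    intro p _
    have h6 : ∀ j ∈ (Finset.univ : Finset (Fin l)), (Nj A M l p.1 j (p.2 j) : ℝ) ≠ 0 := by
      intro j _
      have := Nj_pos A M l p.1 j (p.2 j)
      exact_mod_cast this.ne'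
    rw [Real.log_mul (by have := wt_pos' hw p.1; positivity) (Finset.prod_ne_zero_iff.2 h6),
      Real.log_div (wt_pos' hw p.1).ne' (by positivity), Real.log_pow, Real.log_prod h6,
      ← Finset.mul_sum]
    ring
  rw [hl] at hg
  have hN : ∑ j : Fin l, ∑ p, P p * Real.log (Nj A M l p.1 j (p.2 j)) ≤ l * (2 * G) := by
    calc ∑ j : Fin l, ∑ p, P p * Real.log (Nj A M l p.1 j (p.2 j)) ≤ ∑ _j : Fin l, 2 * G := by
          apply Finset.sum_le_sum
          intro j _
          refine le_trans ?_ (Nj_mean hw A hG hM j)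
          apply Finset.sum_le_sum
          intro p _
          apply mul_le_mul_of_nonneg_left _ (hP0 p).le
          have h7 : (0 : ℝ) < Nj A M l p.1 j (p.2 j) := by
            exact_mod_cast Nj_pos A M l p.1 j (p.2 j)
          have := Real.log_le_sub_one_of_pos h7
          linarith
      _ = l * (2 * G) := by
          rw [Finset.sum_const, Finset.card_univ, Fintype.card_fin, nsmul_eq_mul]
  linarith

end

end Pool.Agent.Helper97.Fuchs.H11
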