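import Pool.Agent.Helper97.Fuchs.H11.EntLower

/-!
# Upper bound for the entropy of positions by decoding (FU-D5b)
-/

namespace Pool.Agent.Helper97.Fuchs.H11

open MeasureTheory Matrix UpperHalfPlane Filter Topology
open scoped MatrixGroups ENNReal BigOperators

noncomputable section

variable {ι : Type} [Fintype ι]

/-! ### ordered products with insertions -/

/-- product of the first `k` letters with insertions -/
def preIns (A : ι → SL(2, ℝ)) (N : ℝ) (e : ℕ → Bool) {n : ℕ} (u : Fin n → ι) (k : ℕ) :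
    SL(2, ℝ) :=
  ((List.ofFn fun j : Fin n => A (u j) * (if e j then U N else 1)).take k).prod

omit [Fintype ι] in
lemma wordIns_eq (A : ι → SL(2, ℝ)) (N : ℝ) {n : ℕ} (e : ℕ → Bool) (u : Fin n → ι) :
    wordIns A N n e u = (List.ofFn fun j : Fin n => A (u j) * (if e j then U N else 1)).prod := by
  induction n generalizing e with
  | zero => simp [wordIns]
  | succ n ih =>
    rw [wordIns, ih, List.ofFn_succ, List.prod_cons]
    rfl

omit [Fintype ι] in
lemma preIns_full (A : ι → SL(2, ℝ)) (N : ℝ) {n : ℕ} (e : ℕ → Bool) (u : Fin n → ι) :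
    preIns A N e u n = wordIns A N n e u := by
  rw [wordIns_eq, preIns, List.take_of_length_le (by simp)]

omit [Fintype ι] in
lemma preIns_zero (A : ι → SL(2, ℝ)) (N : ℝ) {n : ℕ} (e : ℕ → Bool) (u : Fin n → ι) :
    preIns A N e u 0 = 1 := by
  simp [preIns]

omit [Fintype ι] in
lemma preIns_succ (A : ι → SL(2, ℝ)) (N : ℝ) {n : ℕ} (e : ℕ → Bool) (u : Fin n → ι) (k : ℕ)
    (hk : k < n) :
    preIns A N e u (k + 1) = preIns A N e u k * (A (u ⟨k, hk⟩) * (if e k then U N else 1)) := by
  unfold preIns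
  rw [List.take_succ_eq_append_getElem (by simpa using hk), List.prod_append,
    List.prod_singleton, List.getElem_ofFn]

omit [Fintype ι] in
lemma pre_zero' (A : ι → SL(2, ℝ)) {n : ℕ} (u : Fin n → ι) : pre A u 0 = 1 := by
  simp [pre]

omit [Fintype ι] in
lemma pre_full (A : ι → SL(2, ℝ)) {n : ℕ} (u : Fin n → ι) : pre A u n = word A u := by
  rw [pre, word, List.take_of_length_le (by simp)]

omit [Fintype ι] in
lemma pre_succ (A : ι → SL(2, ℝ)) {n : ℕ} (u : Fin n → ι) (k : ℕ) (hk : k < n) :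
    pre A u (k + 1) = pre A u k * A (u ⟨k, hk⟩) := by
  unfold pre
  rw [List.take_succ_eq_append_getElem (by simpa using hk), List.prod_append,
    List.prod_singleton, List.getElem_ofFn]

omit [Fintype ι] in
/-- no insertion in `[a, b)` -/
lemma preIns_free (A : ι → SL(2, ℝ)) (N : ℝ) {n : ℕ} (e : ℕ → Bool) (u : Fin n → ι) (a b : ℕ)
    (hab : a ≤ b) (hb : b ≤ n) (he : ∀ k, a ≤ k → k < b → e k = false) :
    preIns A N e u b = preIns A N e u a * ((pre A u a)⁻¹ * pre A u b) := by
  induction b, hab using Nat.le_induction with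
  | base => simp
  | succ b hab ih =>
    rw [preIns_succ A N e u b (by omega), ih (by omega) (fun k h1 h2 => he k h1 (by omega)),
      he b hab (by omega), pre_succ A u b (by omega)]
    simp [mul_assoc]

omit [Fintype ι] in
/-- exactly one insertion in `[a, b]`, at `b` -/
lemma preIns_one (A : ι → SL(2, ℝ)) (N : ℝ) {n : ℕ} (e : ℕ → Bool) (u : Fin n → ι) (a b : ℕ)
    (hab : a ≤ b) (hb : b < n) (he : ∀ k, a ≤ k → k < b → e k = false) (heb : e b = true) :
    preIns A N e u (b + 1) =
      preIns A N e u a * ((pre A u a)⁻¹ * pre A u (b + 1) * U N) := by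
  rw [preIns_succ A N e u b hb, preIns_free A N e u a b hab hb.le he, heb, pre_succ A u b hb]
  simp [mul_assoc]

lemma ofFn_split {G : Type} [Monoid G] {n : ℕ} (f : Fin n → G) (a : ℕ) (ha : a ≤ n) :
    (List.ofFn f).prod = ((List.ofFn f).take a).prod *
      (List.ofFn (fun k : Fin (n - a) => f ⟨a + k, by omega⟩)).prod := by
  rw [← List.prod_append]
  congr 1
  apply List.ext_getElem
  · simp; omega
  · intro i h₁ h₂
    rw [List.getElem_ofFn, List.getElem_append]
    have hlen : ((List.ofFn f).take a).length = a := by simp; omega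
    split_ifs with hi
    · rw [List.getElem_take, List.getElem_ofFn]
    · rw [List.getElem_ofFn]
      congr 1
      apply Fin.ext
      show i = a + (i - _)
      rw [hlen] at hi ⊢
      omega

omit [Fintype ι] in
/-- the remaining product as a `wordIns` of the remaining letters -/
lemma rest_eq (A : ι → SL(2, ℝ)) (N : ℝ) {n : ℕ} (e : ℕ → Bool) (u : Fin n → ι) (a : ℕ)
    (ha : a ≤ n) :
    (preIns A N e u a)⁻¹ * wordIns A N n e u =
      wordIns A N (n - a) (fun k => e (a + k)) (fun k : Fin (n - a) => u ⟨a + k, by omega⟩) := by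
  rw [inv_mul_eq_iff_eq_mul, wordIns_eq, wordIns_eq, preIns]
  exact ofFn_split _ a ha

/-! ### the insertion times -/

/-- `s_0 = 0`, `s_{j+1} = j M + τ_j + 1` -/
def tm (M l : ℕ) (τ : Fin l → Fin M) : ℕ → ℕ
  | 0 => 0
  | j + 1 => if h : j < l then j * M + (τ ⟨j, h⟩ : ℕ) + 1 else l * M

lemma tm_succ {M l : ℕ} (τ : Fin l → Fin M) (j : Fin l) :
    tm M l τ (j + 1) = (j : ℕ) * M + (τ j : ℕ) + 1 := by
  simp [tm]

lemma win_le {M l : ℕ} (τ : Fin l → Fin M) (j : Fin l) :
    (j : ℕ) * M + (τ j : ℕ) + 1 ≤ l * M := by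
  have h8 := (τ j).2
  have h9 := j.2
  calc (j : ℕ) * M + (τ j : ℕ) + 1 ≤ (j : ℕ) * M + M := by omega
    _ = ((j : ℕ) + 1) * M := by ring
    _ ≤ l * M := Nat.mul_le_mul_right M h9

lemma tm_le_mul {M l : ℕ} (τ : Fin l → Fin M) (j : ℕ) (hj : j ≤ l) : tm M l τ j ≤ j * M := by
  rcases j with _ | j
  · simp [tm]
  · rw [tm, dif_pos (by omega)]
    have h8 := (τ ⟨j, by omega⟩).2
    calc j * M + (τ ⟨j, by omega⟩ : ℕ) + 1 ≤ j * M + M := by omega
      _ = (j + 1) * M := by ring

lemma tm_ge_mul {M l : ℕ} (τ : Fin l → Fin M) (j : ℕ) (hj : j < l) :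
    j * M + 1 ≤ tm M l τ (j + 1) := by
  rw [tm, dif_pos hj]
  omega

lemma tm_lt {M l : ℕ} (τ : Fin l → Fin M) (j : Fin l) :
    tm M l τ j ≤ (j : ℕ) * M + (τ j : ℕ) := by
  have := tm_le_mul τ j j.2.le
  omega

lemma tm_gap {M l : ℕ} (τ : Fin l → Fin M) (j : Fin l) :
    tm M l τ (j + 1) - tm M l τ j ≤ 2 * M := by
  rw [tm_succ]
  have h1 := (τ j).2
  obtain ⟨j, hj⟩ := j
  rcases j with _ | j
  · simp [tm]; omega
  · have h2 := tm_ge_mul τ j (by omega)
    have : (j + 1) * M = j * M + M := by ring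
    show (j + 1) * M + (τ ⟨j + 1, hj⟩ : ℕ) + 1 - tm M l τ (j + 1) ≤ 2 * M
    omega

lemma pat_true_iff {M l : ℕ} (τ : Fin l → Fin M) (k : ℕ) :
    pat M l τ k = true ↔ ∃ j : Fin l, k = (j : ℕ) * M + (τ j : ℕ) := by
  unfold pat
  constructor
  · intro h
    split_ifs at h with h1
    rw [decide_eq_true_eq] at h
    refine ⟨⟨k / M, h1⟩, ?_⟩
    rw [← h]
    have := Nat.div_add_mod k M
    simp only
    rw [mul_comm]
    exact this.symm
  · rintro ⟨j, rfl⟩
    have hM : 0 < M := by have := (τ j).2; omega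
    have h1 : ((j : ℕ) * M + (τ j : ℕ)) / M = j := by
      rw [mul_comm, Nat.mul_add_div hM, Nat.div_eq_of_lt (τ j).2, Nat.add_zero]
    have h2 : ((j : ℕ) * M + (τ j : ℕ)) % M = τ j := by
      rw [mul_comm, Nat.mul_add_mod, Nat.mod_eq_of_lt (τ j).2]
    have h3 : ((j : ℕ) * M + (τ j : ℕ)) / M < l := by rw [h1]; exact j.2
    rw [dif_pos h3, decide_eq_true_eq, h2]
    congr 2
    apply Fin.ext
    exact h1.symm

lemma pos_mono {M l : ℕ} (τ : Fin l → Fin M) {i j : Fin l} (h : (i : ℕ) < j) :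
    (i : ℕ) * M + (τ i : ℕ) + 1 ≤ (j : ℕ) * M := by
  have h8 := (τ i).2
  calc (i : ℕ) * M + (τ i : ℕ) + 1 ≤ (i : ℕ) * M + M := by omega
    _ = ((i : ℕ) + 1) * M := by ring
    _ ≤ (j : ℕ) * M := Nat.mul_le_mul_right M h

lemma pat_free {M l : ℕ} (τ : Fin l → Fin M) (j : Fin l) (k : ℕ) (h1 : tm M l τ j ≤ k)
    (h2 : k < (j : ℕ) * M + (τ j : ℕ)) : pat M l τ k = false := by
  rw [← Bool.not_eq_true, pat_true_iff]
  rintro ⟨i, rfl⟩
  rcases lt_trichotomy (i : ℕ) j with h | h | h
  · obtain ⟨j, hj⟩ := j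
    rcases j with _ | j
    · simp at h
    · have h3 : (i : ℕ) ≤ j := by simp at h; omega
      rcases h3.eq_or_lt with h4 | h4
      · have : i = ⟨j, Nat.lt_of_succ_lt hj⟩ := Fin.ext h4
        subst this
        simp only [tm] at h1
        rw [dif_pos (by omega : j < l)] at h1
        omega
      · have h5 := pos_mono τ (i := i) (j := ⟨j, by omega⟩) h4
        simp only [tm] at h1
        rw [dif_pos (by omega : j < l)] at h1
        simp only at h5
        omega
  · have : i = j := Fin.ext h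
    subst this
    omega
  · have := pos_mono τ h
    omega

lemma pat_at {M l : ℕ} (τ : Fin l → Fin M) (j : Fin l) :
    pat M l τ ((j : ℕ) * M + (τ j : ℕ)) = true := (pat_true_iff τ _).2 ⟨j, rfl⟩

lemma pat_end {M l : ℕ} (τ : Fin l → Fin M) (k : ℕ) (h1 : tm M l τ l ≤ k) :
    pat M l τ k = false := by
  rw [← Bool.not_eq_true, pat_true_iff]
  rintro ⟨i, rfl⟩
  rcases l with _ | l
  · exact i.elim0
  · simp only [tm] at h1
    rw [dif_pos (by omega : l < l + 1)] at h1
    rcases (Nat.lt_succ_iff.1 i.2).eq_or_lt with h4 | h4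
    · have : i = ⟨l, Nat.lt_succ_self l⟩ := Fin.ext h4
      subst this
      simp only at h1
      omega
    · have h5 := pos_mono τ (i := i) (j := ⟨l, by omega⟩) h4
      simp only at h5
      omega

lemma pat_sparse {M l : ℕ} (hM : 1 ≤ M) (τ : Fin l → Fin M) (a : ℕ) :
    Sparse M (fun k => pat M l τ (a + k)) := by
  intro m
  have h1 : ((Finset.range M).filter (fun k => pat M l τ (a + (m + k)) = true)).card ≤
      ({(a + m) / M, (a + m) / M + 1} : Finset ℕ).card := by
    apply Finset.card_le_card_of_injOn (fun k => (a + (m + k)) / M)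
    · intro k hk
      simp only [Finset.coe_filter, Finset.mem_range, Set.mem_ofPred_eq] at hk
      simp only [Finset.coe_insert, Finset.coe_singleton, Set.mem_insert_iff,
        Set.mem_singleton_iff]
      have h2 : (a + m) / M ≤ (a + (m + k)) / M := Nat.div_le_div_right (by omega)
      have h3 : (a + (m + k)) / M ≤ (a + m) / M + 1 := by
        have : (a + (m + k)) / M ≤ (a + m + M) / M := Nat.div_le_div_right (by omega)
        rwa [Nat.add_div_right _ (by omega)] at this
      omega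
    · intro k hk k' hk' hkk
      simp only [Finset.coe_filter, Finset.mem_range, Set.mem_ofPred_eq] at hk hk'
      obtain ⟨i, hi⟩ := (pat_true_iff τ _).1 hk.2
      obtain ⟨i', hi'⟩ := (pat_true_iff τ _).1 hk'.2
      have h4 : ∀ i : Fin l, ((i : ℕ) * M + (τ i : ℕ)) / M = i := by
        intro i
        rw [mul_comm, Nat.mul_add_div (by omega), Nat.div_eq_of_lt (τ i).2, Nat.add_zero]
      simp only at hkk
      rw [hi, hi', h4, h4] at hkk
      have : i = i' := Fin.ext hkk
      subst this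
      omega
  have h2 : ({(a + m) / M, (a + m) / M + 1} : Finset ℕ).card ≤ 2 := Finset.card_le_two
  exact h1.trans h2

/-! ### the product kernel -/

/-- the product kernel that decodes the positions one after the other -/
def qq (q : SL(2, ℝ) → SL(2, ℝ) → ℝ) (N : ℝ) : (l : ℕ) → (Fin l → SL(2, ℝ)) → SL(2, ℝ) → ℝ
  | 0, _, _ => 1
  | l + 1, b, W => q (b 0) W * qq q N l (fun j => b j.succ) ((b 0 * U N)⁻¹ * W)

lemma qq_nonneg (q : SL(2, ℝ) → SL(2, ℝ) → ℝ) (hq0 : ∀ a X, 0 ≤ q a X) (N : ℝ) :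
    ∀ (l : ℕ) (b : Fin l → SL(2, ℝ)) (W : SL(2, ℝ)), 0 ≤ qq q N l b W := by
  intro l
  induction l with
  | zero => intro b W; simp [qq]
  | succ l ih => intro b W; exact mul_nonneg (hq0 _ _) (ih _ _)

lemma qq_eq (q : SL(2, ℝ) → SL(2, ℝ) → ℝ) (N : ℝ) :
    ∀ (l : ℕ) (b : Fin l → SL(2, ℝ)) (X : ℕ → SL(2, ℝ)),
      (∀ j : Fin l, X (j + 1) = (b j * U N)⁻¹ * X j) →
      qq q N l b (X 0) = ∏ j : Fin l, q (b j) (X j) := by
  intro l
  induction l with
  | zero => intro b X _; simp [qq]
  | succ l ih =>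
    intro b X hX
    rw [qq, Fin.prod_univ_succ]
    have h0 := hX 0
    have h1 := ih (fun j => b j.succ) (fun k => X (k + 1)) (fun j => by
      have := hX j.succ
      simpa using this)
    have h2 : (b 0 * U N)⁻¹ * X 0 = X (0 + 1) := h0.symm
    rw [h2, h1]
    rfl

lemma qq_sum (q : SL(2, ℝ) → SL(2, ℝ) → ℝ) (hq0 : ∀ a X, 0 ≤ q a X) (N : ℝ)
    (Γ : Subgroup SL(2, ℝ)) (hU : U N ∈ Γ)
    (hq1 : ∀ X ∈ Γ, ∀ s : Finset SL(2, ℝ), (∀ a ∈ s, a ∈ Γ) → ∑ a ∈ s, q a X ≤ 1) :
    ∀ (l : ℕ) (s : Finset (Fin l → SL(2, ℝ))) (W : SL(2, ℝ)), W ∈ Γ →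
      (∀ b ∈ s, ∀ j, b j ∈ Γ) → ∑ b ∈ s, qq q N l b W ≤ 1 := by
  classical
  intro l
  induction l with
  | zero =>
    intro s W _ _
    simp only [qq, Finset.sum_const, nsmul_eq_mul, mul_one]
    have : s.card ≤ 1 := by
      rw [Finset.card_le_one]
      intro a _ b _
      exact Subsingleton.elim _ _
    exact_mod_cast this
  | succ l ih =>
    intro s W hW hs
    rw [← Finset.sum_fiberwise_of_maps_to (s := s) (t := s.image fun b => b 0)
      (g := fun b => b 0) (fun x hx => Finset.mem_image_of_mem _ hx)]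
    have h1 : ∀ g ∈ s.image (fun b => b 0), ∑ b ∈ s with b 0 = g, qq q N (l + 1) b W ≤ q g W := by
      intro g hg
      obtain ⟨b0, hb0, hb0g⟩ := Finset.mem_image.1 hg
      have hgΓ : g ∈ Γ := by rw [← hb0g]; exact hs b0 hb0 0
      have h2 : ∀ b ∈ s.filter (fun b => b 0 = g), qq q N (l + 1) b W =
          q g W * qq q N l (fun j => b j.succ) ((g * U N)⁻¹ * W) := by
        intro b hb
        rw [Finset.mem_filter] at hb
        rw [qq, hb.2]
      rw [Finset.sum_congr rfl h2, ← Finset.mul_sum]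
      have h3 : ∑ b ∈ s.filter (fun b => b 0 = g), qq q N l (fun j => b j.succ)
          ((g * U N)⁻¹ * W) =
          ∑ b' ∈ (s.filter (fun b => b 0 = g)).image (fun b => fun j : Fin l => b j.succ),
            qq q N l b' ((g * U N)⁻¹ * W) := by
        rw [Finset.sum_image]
        intro b hb b' hb' hbb
        simp only [Finset.coe_filter, Set.mem_ofPred_eq] at hb hb'
        funext j
        refine Fin.cases ?_ (fun j => ?_) j
        · rw [hb.2, hb'.2]
        · exact congrFun hbb j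
      rw [h3]
      have h4 := ih ((s.filter (fun b => b 0 = g)).image (fun b => fun j : Fin l => b j.succ))
        ((g * U N)⁻¹ * W) (Γ.mul_mem (Γ.inv_mem (Γ.mul_mem hgΓ hU)) hW) (by
          intro b' hb' j
          obtain ⟨b, hb, rfl⟩ := Finset.mem_image.1 hb'
          exact hs b (Finset.mem_filter.1 hb).1 _)
      calc q g W * _ ≤ q g W * 1 := mul_le_mul_of_nonneg_left h4 (hq0 _ _)
        _ = q g W := mul_one _
    refine (Finset.sum_le_sum h1).trans (hq1 W hW _ ?_)
    intro g hg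
    obtain ⟨b0, hb0, rfl⟩ := Finset.mem_image.1 hg
    exact hs b0 hb0 0

lemma U_add (x y : ℝ) : U (x + y) = U x * U y := by
  apply Subtype.ext
  ext i j
  show (U (x + y)) i j = (U x * U y) i j
  rw [mul_apply']
  fin_cases i <;> fin_cases j <;> simp [U, add_comm]

lemma U_zero : U 0 = 1 := by
  apply Subtype.ext
  ext i j
  fin_cases i <;> fin_cases j <;> simp [U]

lemma U_nat_mem {Γ : Subgroup SL(2, ℝ)} (hU : U 1 ∈ Γ) (n : ℕ) : U (n : ℝ) ∈ Γ := by
  induction n with
  | zero => simp only [Nat.cast_zero, U_zero]; exact Γ.one_mem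
  | succ n ih =>
    rw [Nat.cast_succ, U_add]
    exact Γ.mul_mem ih hU

omit [Fintype ι] in
lemma A_mem (A : ι → SL(2, ℝ)) (i : ι) : A i ∈ grp A :=
  Subgroup.subset_closure (Or.inl ⟨i, rfl⟩)

omit [Fintype ι] in
lemma pre_mem (A : ι → SL(2, ℝ)) {n : ℕ} (u : Fin n → ι) (k : ℕ) : pre A u k ∈ grp A := by
  unfold pre
  apply Subgroup.list_prod_mem
  intro x hx
  have := List.mem_of_mem_take hx
  rw [List.mem_ofFn] at this
  obtain ⟨j, rfl⟩ := this
  exact A_mem A _

omit [Fintype ι] in
lemma preIns_mem (A : ι → SL(2, ℝ)) {N : ℕ} (hU : U 1 ∈ grp A) (e : ℕ → Bool) {n : ℕ}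
    (u : Fin n → ι) (k : ℕ) : preIns A N e u k ∈ grp A := by
  unfold preIns
  apply Subgroup.list_prod_mem
  intro x hx
  have := List.mem_of_mem_take hx
  rw [List.mem_ofFn] at this
  obtain ⟨j, rfl⟩ := this
  apply Subgroup.mul_mem _ (A_mem A _)
  split_ifs
  · exact U_nat_mem hU N
  · exact Subgroup.one_mem _

/-- increments between consecutive positions -/
def Binc (A : ι → SL(2, ℝ)) (M l : ℕ) (p : (Fin (l * M) → ι) × (Fin l → Fin M)) (j : Fin l) :
    SL(2, ℝ) := (pre A p.1 (tm M l p.2 j))⁻¹ * pre A p.1 (tm M l p.2 (j + 1))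

omit [Fintype ι] in
lemma Vpos_eq (A : ι → SL(2, ℝ)) (M l : ℕ) (p : (Fin (l * M) → ι) × (Fin l → Fin M))
    (j : Fin l) : Vpos A M l p j = pre A p.1 (tm M l p.2 (j + 1)) := by
  rw [Vpos, tm_succ]

omit [Fintype ι] in
lemma preIns_tm (A : ι → SL(2, ℝ)) (N : ℝ) (M l : ℕ)
    (p : (Fin (l * M) → ι) × (Fin l → Fin M)) (j : Fin l) :
    preIns A N (pat M l p.2) p.1 (tm M l p.2 (j + 1)) =
      preIns A N (pat M l p.2) p.1 (tm M l p.2 j) * (Binc A M l p j * U N) := by
  have h1 := win_le p.2 j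
  rw [Binc, tm_succ]
  exact preIns_one A N (pat M l p.2) p.1 (tm M l p.2 j) ((j : ℕ) * M + (p.2 j : ℕ))
    (tm_lt p.2 j) (by omega) (fun k h2 h3 => pat_free p.2 j k h2 h3) (pat_at p.2 j)

omit [Fintype ι] in
lemma Wins_eq (A : ι → SL(2, ℝ)) (N : ℝ) (M l : ℕ)
    (p : (Fin (l * M) → ι) × (Fin l → Fin M)) :
    Wins A N M l p = preIns A N (pat M l p.2) p.1 (tm M l p.2 l) *
      ((pre A p.1 (tm M l p.2 l))⁻¹ * word A p.1) := by
  rw [Wins, ← preIns_full, ← pre_full]
  exact preIns_free A N (pat M l p.2) p.1 (tm M l p.2 l) (l * M) (tm_le_mul p.2 l le_rfl) le_rfl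
    (fun k h1 _ => pat_end p.2 k h1)

omit [Fintype ι] in
/-- positions and increments determine each other -/
lemma fib_equiv (A : ι → SL(2, ℝ)) (N : ℝ) (M l : ℕ)
    (p p' : (Fin (l * M) → ι) × (Fin l → Fin M)) :
    ((Vpos A M l p, word A p.1) = (Vpos A M l p', word A p'.1)) ↔
      ((Binc A M l p, Wins A N M l p) = (Binc A M l p', Wins A N M l p')) := by
  have hVQ : Vpos A M l p = Vpos A M l p' ↔
      ∀ k ≤ l, pre A p.1 (tm M l p.2 k) = pre A p'.1 (tm M l p'.2 k) := by
    constructor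
    · intro h k hk
      rcases k with _ | k
      · simp only [tm, pre_zero']
      · have := congrFun h ⟨k, by omega⟩
        rwa [Vpos_eq, Vpos_eq] at this
    · intro h
      funext j
      rw [Vpos_eq, Vpos_eq]
      exact h _ j.2
  have hBQ : Binc A M l p = Binc A M l p' ↔
      ∀ k ≤ l, pre A p.1 (tm M l p.2 k) = pre A p'.1 (tm M l p'.2 k) := by
    constructor
    · intro h k hk
      induction k with
      | zero => simp only [tm, pre_zero']
      | succ k ih =>
        have h1 := congrFun h ⟨k, by omega⟩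
        unfold Binc at h1
        simp only at h1
        rw [ih (by omega)] at h1
        exact mul_left_cancel h1
    · intro h
      funext j
      unfold Binc
      rw [h _ j.2.le, h _ j.2]
  have hI : Binc A M l p = Binc A M l p' → ∀ k ≤ l,
      preIns A N (pat M l p.2) p.1 (tm M l p.2 k) =
        preIns A N (pat M l p'.2) p'.1 (tm M l p'.2 k) := by
    intro h k hk
    induction k with
    | zero => simp only [tm, preIns_zero]
    | succ k ih =>
      have h1 := preIns_tm A N M l p ⟨k, by omega⟩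
      have h2 := preIns_tm A N M l p' ⟨k, by omega⟩
      simp only at h1 h2
      rw [h1, h2, ih (by omega), h]
  simp only [Prod.mk.injEq]
  constructor
  · rintro ⟨h1, h2⟩
    have h3 := hVQ.1 h1
    have h4 := hBQ.2 h3
    refine ⟨h4, ?_⟩
    rw [Wins_eq, Wins_eq, h3 l le_rfl, hI h4 l le_rfl, h2]
  · rintro ⟨h1, h2⟩
    have h3 := hBQ.1 h1
    refine ⟨hVQ.2 h3, ?_⟩
    rw [Wins_eq, Wins_eq, h3 l le_rfl, hI h1 l le_rfl] at h2
    exact mul_left_cancel (mul_left_cancel h2)

theorem ent_upper (w : ι → ℝ) (A : ι → SL(2, ℝ)) (hw : IsWt w) {C₀ : ℝ} {N M : ℕ} (hM : 1 ≤ M)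
    (hU : U 1 ∈ grp A)
    (q : SL(2, ℝ) → SL(2, ℝ) → ℝ) (hq0 : ∀ a X, 0 ≤ q a X)
    (hqpos : ∀ a ∈ grp A, ∀ X ∈ grp A, 0 < q a X)
    (hq1 : ∀ X ∈ grp A, ∀ s : Finset SL(2, ℝ), (∀ a ∈ s, a ∈ grp A) → ∑ a ∈ s, q a X ≤ 1)
    (hdec : ∀ (n t : ℕ) (htn : t ≤ n) (e : ℕ → Bool), 1 ≤ t → t ≤ 2 * M →
        (∀ k < t - 1, e k = false) → e (t - 1) = true → Sparse M e →
        Ex w n (fun u => -Real.log (q (word A fun j : Fin t => u (Fin.castLE htn j))
          (wordIns A N n e u))) ≤ C₀) (l : ℕ) :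
    Hs (wtIns w M l) (fun p => (Vpos A M l p, word A p.1))
      ≤ Hs (wtIns w M l) (fun p => Wins A N M l p) + l * C₀ := by
  classical
  have hUN : U (N : ℝ) ∈ grp A := U_nat_mem hU N
  set P := wtIns w M l with hPdef
  have hP0 : ∀ p, 0 < P p := wtIns_pos hw hM
  have hP1 : ∑ p, P p = 1 := wtIns_sum hw hM
  have hBmem : ∀ p j, Binc A M l p j ∈ grp A := fun p j =>
    Subgroup.mul_mem _ (Subgroup.inv_mem _ (pre_mem A _ _)) (pre_mem A _ _)
  have hWmem : ∀ p, Wins A N M l p ∈ grp A := fun p => by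
    rw [Wins, ← preIns_full]
    exact preIns_mem A hU _ _ _
  -- the remaining products
  set X : (Fin (l * M) → ι) × (Fin l → Fin M) → ℕ → SL(2, ℝ) := fun p k =>
    (preIns A N (pat M l p.2) p.1 (tm M l p.2 k))⁻¹ * Wins A N M l p with hX
  have hXmem : ∀ p k, X p k ∈ grp A := fun p k =>
    Subgroup.mul_mem _ (Subgroup.inv_mem _ (preIns_mem A hU _ _ _)) (hWmem p)
  have hX0 : ∀ p, X p 0 = Wins A N M l p := fun p => by
    rw [hX]
    simp only [tm, preIns_zero, inv_one, one_mul]
  have hXs : ∀ p, ∀ j : Fin l, X p (j + 1) = (Binc A M l p j * U N)⁻¹ * X p j := fun p j => by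
    rw [hX]
    simp only
    rw [preIns_tm A N M l p j]
    group
  have hqq : ∀ p, qq q N l (Binc A M l p) (Wins A N M l p) =
      ∏ j : Fin l, q (Binc A M l p j) (X p j) := fun p => by
    rw [← hX0]
    exact qq_eq q N l _ _ (hXs p)
  have hg := gibbs P (fun p => (hP0 p).le) hP1 (fun p => Binc A M l p)
    (fun p => Wins A N M l p) (fun b W => qq q N l b W) (fun b W => qq_nonneg q hq0 N l b W)
    (fun p _ => by
      rw [hqq]
      exact Finset.prod_pos fun j _ => hqpos _ (hBmem p j) _ (hXmem p j))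
    (fun p s hs => by
      refine qq_sum q hq0 N (grp A) hUN hq1 l s _ (hWmem p) ?_
      intro b hb j
      obtain ⟨p', rfl⟩ := hs b hb
      exact hBmem p' j)
  have hc : Hs P (fun p => (Vpos A M l p, word A p.1)) =
      Hs P (fun p => (Binc A M l p, Wins A N M l p)) :=
    Hs_congr P _ _ (fun p p' => fib_equiv A N M l p p')
  rw [hc]
  have hmain : ∑ p, P p * (-Real.log (qq q N l (Binc A M l p) (Wins A N M l p))) ≤ l * C₀ := by
    have h1 : ∀ p, P p * (-Real.log (qq q N l (Binc A M l p) (Wins A N M l p))) =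
        ∑ j : Fin l, P p * (-Real.log (q (Binc A M l p j) (X p j))) := by
      intro p
      rw [hqq, Real.log_prod (fun j _ => (hqpos _ (hBmem p j) _ (hXmem p j)).ne'),
        ← Finset.sum_neg_distrib, Finset.mul_sum]
    rw [Finset.sum_congr rfl (fun p _ => h1 p), Finset.sum_comm]
    have h2 : ∀ j : Fin l, ∑ p, P p * (-Real.log (q (Binc A M l p j) (X p j))) ≤ C₀ := by
      intro j
      rw [Fintype.sum_prod_type, Finset.sum_comm]
      have hM0 : (0 : ℝ) < (M : ℝ) ^ l := by
        have : (0 : ℝ) < M := by exact_mod_cast hM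
        positivity
      have h3 : ∀ τ : Fin l → Fin M, ∑ u : Fin (l * M) → ι,
          P (u, τ) * (-Real.log (q (Binc A M l (u, τ) j) (X (u, τ) j))) ≤
            (1 / (M : ℝ) ^ l) * C₀ := by
        intro τ
        have ha : tm M l τ j ≤ l * M :=
          (tm_le_mul τ j j.2.le).trans (Nat.mul_le_mul_right M j.2.le)
        have hlt := tm_lt τ j
        have hgap := tm_gap τ j
        have hsucc := tm_succ τ j
        have hwin := win_le τ j
        set a := tm M l τ j with hadef
        set t := tm M l τ (j + 1) - a with htdef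
        have ht1 : 1 ≤ t := by omega
        have hat : a + t = tm M l τ (j + 1) := by omega
        have htn : t ≤ l * M - a := by omega
        have hd := hdec (l * M - a) t htn (fun k => pat M l τ (a + k)) ht1 hgap
          (fun k hk => pat_free τ j (a + k) (by omega) (by omega))
          (by
            have : a + (t - 1) = (j : ℕ) * M + (τ j : ℕ) := by omega
            rw [this]
            exact pat_at τ j)
          (pat_sparse hM τ a)
        rw [← Ex_block w hw.sum (l * M) a (l * M - a) (by omega)] at hd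
        have h4 : ∑ u : Fin (l * M) → ι,
            P (u, τ) * (-Real.log (q (Binc A M l (u, τ) j) (X (u, τ) j))) =
            (1 / (M : ℝ) ^ l) * Ex w (l * M) (fun u => -Real.log (q
              (word A fun i : Fin t => (fun k : Fin (l * M - a) => u ⟨a + k, by omega⟩)
                (Fin.castLE htn i))
              (wordIns A N (l * M - a) (fun k => pat M l τ (a + k))
                (fun k : Fin (l * M - a) => u ⟨a + k, by omega⟩)))) := by
          unfold Ex
          rw [Finset.mul_sum]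
          apply Finset.sum_congr rfl
          intro u _
          have e1 : Binc A M l (u, τ) j = word A (fun i : Fin t =>
              (fun k : Fin (l * M - a) => u ⟨a + k, by omega⟩) (Fin.castLE htn i)) := by
            unfold Binc
            simp only
            rw [← hadef, ← hat, pre_eq A u a t (by omega), inv_mul_cancel_left]
            rfl
          have e2 : X (u, τ) j = wordIns A N (l * M - a) (fun k => pat M l τ (a + k))
              (fun k : Fin (l * M - a) => u ⟨a + k, by omega⟩) := by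
            rw [hX]
            simp only
            rw [← hadef, ← rest_eq A N (pat M l τ) u a ha]
            rfl
          rw [e1, e2, hPdef]
          unfold wtIns
          simp only
          ring
        rw [h4]
        exact mul_le_mul_of_nonneg_left hd (by positivity)
      refine (Finset.sum_le_sum fun τ _ => h3 τ).trans ?_
      rw [Finset.sum_const, Finset.card_univ, Fintype.card_fun, Fintype.card_fin,
        Fintype.card_fin, nsmul_eq_mul]
      push_cast
      have : (M : ℝ) ^ l * (1 / (M : ℝ) ^ l * C₀) = C₀ := by field_simp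
      exact this.le
    refine (Finset.sum_le_sum fun j _ => h2 j).trans ?_
    rw [Finset.sum_const, Finset.card_univ, Fintype.card_fin, nsmul_eq_mul]
  linarith

end

end Pool.Agent.Helper97.Fuchs.H11
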